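import Mathlib

set_option autoImplicit false
set_option linter.unusedSectionVars false

open Finset

namespace Pool.Agent.Results.MP_d6e134_ag.GenericMembers

/-! ### Rings with a finite group of automorphisms -/

section maschke

variable {B G : Type} [Ring B] [Group G] [Fintype G]

/-- twisted right multiplication -/
private def mr (σ : G → B →+* B) (f : G → B) (r : B) : G → B := fun g => f g * σ g r

private def mg (f : G → B) (h : G) : G → B := fun g => f (g * h⁻¹)

private theorem mg_add (f f' : G → B) (h : G) : mg (f + f') h = mg f h + mg f' h := rfl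

private theorem mg_neg (f : G → B) (h : G) : mg (-f) h = -mg f h := rfl

private theorem mg_sub (f f' : G → B) (h : G) : mg (f - f') h = mg f h - mg f' h := rfl

private theorem mg_zero (h : G) : mg (0 : G → B) h = 0 := rfl

private theorem mg_nsmul (f : G → B) (n : ℕ) (h : G) : mg (n • f) h = n • mg f h := rfl

private theorem mg_sum {ι : Type} (s : Finset ι) (F : ι → G → B) (h : G) :
    mg (∑ i ∈ s, F i) h = ∑ i ∈ s, mg (F i) h := by
  funext g
  simp only [mg, Finset.sum_apply]

private theorem mg_mg (f : G → B) (h k : G) : mg (mg f h) k = mg f (h * k) := by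
  funext g
  simp only [mg, mul_inv_rev, mul_assoc]

private theorem mg_one (f : G → B) : mg f 1 = f := by
  funext g
  simp only [mg, inv_one, mul_one]

private theorem mr_add (σ : G → B →+* B) (f f' : G → B) (r : B) :
    mr σ (f + f') r = mr σ f r + mr σ f' r := by
  funext g
  simp only [mr, Pi.add_apply, add_mul]

private theorem mr_zero (σ : G → B →+* B) (r : B) : mr σ (0 : G → B) r = 0 := by
  funext g
  simp only [mr, Pi.zero_apply, zero_mul]

private theorem mr_neg (σ : G → B →+* B) (f : G → B) (r : B) : mr σ (-f) r = -mr σ f r := by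
  funext g
  simp only [mr, Pi.neg_apply, neg_mul]

private theorem mr_sub (σ : G → B →+* B) (f f' : G → B) (r : B) :
    mr σ (f - f') r = mr σ f r - mr σ f' r := by
  funext g
  simp only [mr, Pi.sub_apply, sub_mul]

private theorem mr_sum {ι : Type} (σ : G → B →+* B) (s : Finset ι) (F : ι → G → B) (r : B) :
    mr σ (∑ i ∈ s, F i) r = ∑ i ∈ s, mr σ (F i) r := by
  funext g
  simp only [mr, Finset.sum_apply, Finset.sum_mul]

/-- closed under the twisted right multiplications -/
private def RS (σ : G → B →+* B) (W : AddSubgroup (G → B)) : Prop := ∀ f ∈ W, ∀ r, mr σ f r ∈ W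

private theorem RS_sup {σ : G → B →+* B} {W W' : AddSubgroup (G → B)} (h : RS σ W) (h' : RS σ W') :
    RS σ (W ⊔ W') := by
  intro f hf r
  rw [AddSubgroup.mem_sup] at hf ⊢
  obtain ⟨a, ha, b, hb, rfl⟩ := hf
  exact ⟨_, h a ha r, _, h' b hb r, (mr_add σ a b r).symm⟩

private theorem exists_compl (σ : G → B →+* B) (L : AddSubgroup (G → B)) :
    ∃ U : AddSubgroup (G → B), RS σ U ∧ U ⊓ L = ⊥ ∧
      ∀ W : AddSubgroup (G → B), RS σ W → W ⊓ (L ⊔ U) = ⊥ → W = ⊥ := by
  have hz : ∃ U : AddSubgroup (G → B), Maximal (fun W => RS σ W ∧ W ⊓ L = ⊥) U := by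
    have h0 : (⊥ : AddSubgroup (G → B)) ∈ {W | RS σ W ∧ W ⊓ L = ⊥} := by
      refine ⟨?_, bot_inf_eq L⟩
      intro f hf r
      rw [AddSubgroup.mem_bot] at hf ⊢
      rw [hf, mr_zero]
    have hch : ∀ c ⊆ {W : AddSubgroup (G → B) | RS σ W ∧ W ⊓ L = ⊥}, IsChain (· ≤ ·) c → ∀ y ∈ c,
        ∃ ub ∈ {W : AddSubgroup (G → B) | RS σ W ∧ W ⊓ L = ⊥}, ∀ z ∈ c, z ≤ ub := by
      intro c hc hch y hy
      have hdir : DirectedOn (· ≤ ·) c := hch.directedOn
      have hne : c.Nonempty := ⟨y, hy⟩
      refine ⟨sSup c, ⟨?_, ?_⟩, fun z hz => le_sSup hz⟩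
      · intro f hf r
        rw [AddSubgroup.mem_sSup_of_directedOn hne hdir] at hf ⊢
        obtain ⟨W, hW, hfW⟩ := hf
        exact ⟨W, hW, (hc hW).1 f hfW r⟩
      · rw [eq_bot_iff]
        intro f hf
        obtain ⟨h1, h2⟩ := AddSubgroup.mem_inf.1 hf
        rw [AddSubgroup.mem_sSup_of_directedOn hne hdir] at h1
        obtain ⟨W, hW, hfW⟩ := h1
        have := (hc hW).2
        rw [← this]
        exact AddSubgroup.mem_inf.2 ⟨hfW, h2⟩
    obtain ⟨U, -, hU⟩ := zorn_le_nonempty₀ _ hch ⊥ h0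
    exact ⟨U, hU⟩
  obtain ⟨U, hU⟩ := hz
  refine ⟨U, hU.prop.1, hU.prop.2, ?_⟩
  intro W hW hWE
  have h1 : (U ⊔ W) ⊓ L = ⊥ := by
    rw [eq_bot_iff]
    intro f hf
    obtain ⟨h1, h2⟩ := AddSubgroup.mem_inf.1 hf
    obtain ⟨u, hu, w, hw, rfl⟩ := AddSubgroup.mem_sup.1 h1
    have hw0 : w ∈ W ⊓ (L ⊔ U) := by
      refine AddSubgroup.mem_inf.2 ⟨hw, AddSubgroup.mem_sup.2 ⟨u + w, h2, -u, neg_mem hu, ?_⟩⟩
      rw [add_comm u w, add_neg_cancel_right]
    rw [hWE, AddSubgroup.mem_bot] at hw0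
    subst hw0
    rw [add_zero] at h2 ⊢
    have : u ∈ U ⊓ L := AddSubgroup.mem_inf.2 ⟨hu, h2⟩
    rw [hU.prop.2] at this
    exact this
  have h2 : W ≤ U := le_sup_right.trans (hU.le_of_ge ⟨RS_sup hU.prop.1 hW, h1⟩ le_sup_left)
  rw [eq_bot_iff, ← hWE]
  exact le_inf le_rfl (h2.trans le_sup_right)


/-- A left ideal `X` of a semiprime ring that is stable under a finite group whose order is not a
zero divisor is zero if `x * tr y = 0` for all `x, y ∈ X`. -/
private theorem semiprime_left (σ : G → B →+* B) (h1 : ∀ b, σ 1 b = b)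
    (hm : ∀ g h b, σ (g * h) b = σ g (σ h b))
    (hsp : ∀ a : B, (∀ r, a * r * a = 0) → a = 0)
    (htf : ∀ b : B, Fintype.card G • b = 0 → b = 0)
    (X : Ideal B) (hG : ∀ g : G, ∀ x ∈ X, σ g x ∈ X)
    (hX : ∀ x ∈ X, ∀ y ∈ X, x * ∑ g : G, σ g y = 0) : ∀ x ∈ X, x = 0 := by
  classical
  have hinv : ∀ (g : G) (b : B), σ g (σ g⁻¹ b) = b := fun g b => by
    rw [← hm, mul_inv_cancel, h1]
  -- the left annihilator
  set L : AddSubgroup (G → B) :=
    { carrier := {f | ∀ x ∈ X, ∑ g, f g * σ g x = 0}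
      zero_mem' := fun x _ => by simp
      add_mem' := fun {f f'} hf hf' x hx => by
        simp only [Pi.add_apply, add_mul, Finset.sum_add_distrib, hf x hx, hf' x hx, add_zero]
      neg_mem' := fun {f} hf x hx => by
        simp only [Pi.neg_apply, neg_mul, Finset.sum_neg_distrib, hf x hx, neg_zero] } with hL
  have memL : ∀ f, f ∈ L ↔ ∀ x ∈ X, ∑ g, f g * σ g x = 0 := fun f => Iff.rfl
  have L_mr : RS σ L := by
    intro f hf r
    rw [memL] at hf ⊢
    intro x hx
    have := hf (r * x) (X.mul_mem_left r hx)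
    rw [← this]
    refine Finset.sum_congr rfl fun g _ => ?_
    simp only [mr, map_mul, mul_assoc]
  have L_mg : ∀ f ∈ L, ∀ h, mg f h ∈ L := by
    intro f hf h
    rw [memL] at hf ⊢
    intro x hx
    rw [← hf (σ h x) (hG h x hx)]
    refine Fintype.sum_equiv (Equiv.mulRight h⁻¹) _ _ fun g => ?_
    simp only [mg, Equiv.coe_mulRight]
    rw [← hm, mul_assoc, inv_mul_cancel, mul_one]
  obtain ⟨U0, hU0, hUL, hess⟩ := exists_compl σ L
  set E : AddSubgroup (G → B) := L ⊔ U0 with hE
  have E_mr : RS σ E := RS_sup L_mr hU0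
  have mrmg : ∀ (f : G → B) (r : B) (h : G), mg (mr σ f r) h⁻¹ = mr σ (mg f h⁻¹) (σ h r) := by
    intro f r h
    funext g
    simp only [mg, mr, inv_inv, hm]
  have mrmg2 : ∀ (f : G → B) (r : B) (h : G), mg (mr σ f (σ h r)) h = mr σ (mg f h) r := by
    intro f r h
    funext g
    simp only [mg, mr]
    rw [← hm, mul_assoc, inv_mul_cancel, mul_one]
  have hnL : ∀ (f : G → B) (n : ℕ), f ∈ L → n • f ∈ L := fun f n hf => nsmul_mem hf n
  have htf' : ∀ f : G → B, Fintype.card G • f = 0 → f = 0 := by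
    intro f hf
    funext g
    exact htf _ (congrFun hf g)
  -- the complement
  set U : AddSubgroup (G → B) :=
    { carrier := {f | ∃ l : G → G → B, (∀ h, l h ∈ L) ∧ (∀ h, mg f h⁻¹ - l h ∈ U0) ∧
        ∑ h, mg (l h) h = 0}
      zero_mem' := ⟨0, fun h => zero_mem _, fun h => by
        rw [mg_zero]; simp only [Pi.zero_apply, sub_zero]; exact zero_mem _, by
        simp only [Pi.zero_apply, mg_zero, Finset.sum_const_zero]⟩
      add_mem' := by
        rintro f f' ⟨l, a1, a2, a3⟩ ⟨l', b1, b2, b3⟩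
        refine ⟨l + l', fun h => add_mem (a1 h) (b1 h), fun h => ?_, ?_⟩
        · have := add_mem (a2 h) (b2 h)
          rw [mg_add, Pi.add_apply]
          convert this using 1
          abel
        · simp only [Pi.add_apply, mg_add, Finset.sum_add_distrib, a3, b3, add_zero]
      neg_mem' := by
        rintro f ⟨l, a1, a2, a3⟩
        refine ⟨-l, fun h => neg_mem (a1 h), fun h => ?_, ?_⟩
        · have := neg_mem (a2 h)
          rw [mg_neg, Pi.neg_apply]
          convert this using 1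
          abel
        · simp only [Pi.neg_apply, mg_neg, Finset.sum_neg_distrib, a3, neg_zero] } with hU
  have memU : ∀ f, f ∈ U ↔ ∃ l : G → G → B, (∀ h, l h ∈ L) ∧ (∀ h, mg f h⁻¹ - l h ∈ U0) ∧
        ∑ h, mg (l h) h = 0 := fun f => Iff.rfl
  have hUL0 : ∀ f, f ∈ U → f ∈ L → f = 0 := by
    intro f hfU hfL
    obtain ⟨l, a1, a2, a3⟩ := (memU f).1 hfU
    have e : ∀ h, mg f h⁻¹ = l h := by
      intro h
      have h2 : mg f h⁻¹ - l h ∈ U0 ⊓ L := AddSubgroup.mem_inf.2 ⟨a2 h, sub_mem (L_mg f hfL _) (a1 h)⟩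
      rw [hUL, AddSubgroup.mem_bot] at h2
      exact sub_eq_zero.1 h2
    refine htf' f ?_
    rw [← a3]
    have e2 : ∀ h, mg (l h) h = f := by
      intro h
      rw [← e h, mg_mg, inv_mul_cancel, mg_one]
    rw [Finset.sum_congr rfl fun h _ => e2 h, Finset.sum_const, Finset.card_univ]
  have U_mr : ∀ f ∈ U, ∀ r, mr σ f r ∈ U := by
    intro f hf r
    obtain ⟨l, a1, a2, a3⟩ := (memU f).1 hf
    refine (memU _).2 ⟨fun h => mr σ (l h) (σ h r), fun h => L_mr _ (a1 h) _, fun h => ?_, ?_⟩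
    · rw [mrmg, ← mr_sub]
      exact hU0 _ (a2 h) _
    · rw [Finset.sum_congr rfl fun h _ => mrmg2 (l h) r h, ← mr_sum, a3, mr_zero]
  have U_mg : ∀ f ∈ U, ∀ g, mg f g ∈ U := by
    intro f hf g
    obtain ⟨l, a1, a2, a3⟩ := (memU f).1 hf
    refine (memU _).2 ⟨fun h => l (h * g⁻¹), fun h => a1 _, fun h => ?_, ?_⟩
    · have := a2 (h * g⁻¹)
      rw [mul_inv_rev, inv_inv] at this
      rw [mg_mg]
      exact this
    · have e : ∑ h, mg (l (h * g⁻¹)) h = mg (∑ h, mg (l h) h) g := by
        rw [mg_sum]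
        refine Fintype.sum_equiv (Equiv.mulRight g⁻¹) _ _ fun h => ?_
        simp only [Equiv.coe_mulRight]
        rw [mg_mg, mul_assoc, inv_mul_cancel, mul_one]
      rw [e, a3, mg_zero]
  have hU0' : ∀ f ∈ U, f = 0 := by
    intro f hf
    refine hUL0 f hf ((memL f).2 fun x hx => ?_)
    set c : B := ∑ g, f g * σ g x with hc
    have hcX : c ∈ X := X.sum_mem fun g _ => X.mul_mem_left _ (hG g x hx)
    have e : (fun _ => c : G → B) = ∑ k : G, mg (mr σ f x) k := by
      funext g
      rw [Finset.sum_apply, hc]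
      refine Fintype.sum_equiv ((Equiv.inv G).trans (Equiv.mulLeft g)).symm _ _ fun j => ?_
      simp only [mg, mr, Equiv.symm_trans_apply, Equiv.inv_symm, Equiv.mulLeft_symm,
        Equiv.inv_apply, Equiv.coe_mulLeft, mul_inv_rev, inv_inv]
      rw [mul_inv_cancel_left]
    have hcU : (fun _ => c : G → B) ∈ U := by
      rw [e]
      exact sum_mem fun k _ => U_mg _ (U_mr f hf x) k
    have hcL : (fun _ => c : G → B) ∈ L := by
      rw [memL]
      intro y hy
      rw [← Finset.mul_sum]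
      exact hX c hcX y hy
    have := hUL0 _ hcU hcL
    exact congrFun this 1
  -- `L` is essential
  have hEss : ∀ W : AddSubgroup (G → B), RS σ W → (∃ f ∈ W, f ≠ 0) → ∃ f ∈ W, f ≠ 0 ∧ f ∈ L := by
    intro W hW hW0
    have key : ∀ s : Finset G, ∃ f ∈ W, f ≠ 0 ∧ ∀ h ∈ s, mg f h⁻¹ ∈ E := by
      intro s
      induction s using Finset.induction_on with
      | empty =>
        obtain ⟨f, hf, hf0⟩ := hW0
        exact ⟨f, hf, hf0, fun h hh => absurd hh (Finset.notMem_empty h)⟩
      | insert h s _ ih =>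
        obtain ⟨f, hf, hf0, hfs⟩ := ih
        set W' : AddSubgroup (G → B) :=
          { carrier := {f' | ∃ f ∈ W, (∀ k ∈ s, mg f k⁻¹ ∈ E) ∧ f' = mg f h⁻¹}
            zero_mem' := ⟨0, zero_mem _, fun k _ => by rw [mg_zero]; exact zero_mem _, rfl⟩
            add_mem' := by
              rintro _ _ ⟨a, a1, a2, rfl⟩ ⟨b, b1, b2, rfl⟩
              exact ⟨a + b, add_mem a1 b1, fun k hk => by
                rw [mg_add]; exact add_mem (a2 k hk) (b2 k hk), rfl⟩
            neg_mem' := by
              rintro _ ⟨a, a1, a2, rfl⟩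
              exact ⟨-a, neg_mem a1, fun k hk => by rw [mg_neg]; exact neg_mem (a2 k hk), rfl⟩ }
          with hW'
        have W'_mr : RS σ W' := by
          rintro _ ⟨a, a1, a2, rfl⟩ r
          refine ⟨mr σ a (σ h⁻¹ r), hW a a1 _, fun k hk => ?_, ?_⟩
          · rw [mrmg]
            exact E_mr _ (a2 k hk) _
          · rw [mrmg, hinv]
        have hne : W' ⊓ E ≠ ⊥ := by
          intro hbot
          have h2 := hess W' W'_mr hbot
          have h3 : mg f h⁻¹ ∈ W' := ⟨f, hf, hfs, rfl⟩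
          rw [h2, AddSubgroup.mem_bot] at h3
          apply hf0
          have h4 : mg (mg f h⁻¹) h = f := by rw [mg_mg, inv_mul_cancel, mg_one]
          rw [← h4, h3, mg_zero]
        obtain ⟨f', hf', hf'0⟩ : ∃ f' ∈ W' ⊓ E, f' ≠ 0 := by
          by_contra hcon
          push Not at hcon
          exact hne (eq_bot_iff.2 fun f' hf' => by rw [AddSubgroup.mem_bot]; exact hcon f' hf')
        obtain ⟨⟨a, a1, a2, rfl⟩, hE'⟩ := AddSubgroup.mem_inf.1 hf'
        refine ⟨a, a1, ?_, ?_⟩
        · rintro rfl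
          exact hf'0 (mg_zero _)
        · intro k hk
          rcases Finset.mem_insert.1 hk with rfl | hk
          · exact hE'
          · exact a2 k hk
    obtain ⟨f, hf, hf0, hfE⟩ := key Finset.univ
    have hdec : ∀ h : G, ∃ l ∈ L, mg f h⁻¹ - l ∈ U0 := by
      intro h
      obtain ⟨l, hl, u, hu, hlu⟩ := AddSubgroup.mem_sup.1 (hfE h (Finset.mem_univ h))
      exact ⟨l, hl, by rw [← hlu, add_sub_cancel_left]; exact hu⟩
    choose l hl hlu using hdec
    set lam : G → B := ∑ h, mg (l h) h with hlam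
    have hlamL : lam ∈ L := sum_mem fun h _ => L_mg _ (hl h) h
    have hfU : Fintype.card G • f - lam ∈ U := by
      refine (memU _).2 ⟨fun k => Fintype.card G • l k - mg lam k⁻¹, fun k =>
        sub_mem (hnL _ _ (hl k)) (L_mg _ hlamL _), fun k => ?_, ?_⟩
      · rw [mg_sub, mg_nsmul, sub_sub_sub_cancel_right, ← smul_sub]
        exact nsmul_mem (hlu k) (Fintype.card G)
      · have e : ∀ k : G, mg (Fintype.card G • l k - mg lam k⁻¹) k =
            Fintype.card G • mg (l k) k - lam := by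
          intro k
          rw [mg_sub, mg_nsmul, mg_mg, inv_mul_cancel, mg_one]
        rw [Finset.sum_congr rfl fun k _ => e k, Finset.sum_sub_distrib, ← Finset.smul_sum,
          Finset.sum_const, Finset.card_univ, sub_self]
    have h0 := sub_eq_zero.1 (hU0' _ hfU)
    refine ⟨Fintype.card G • f, nsmul_mem hf _, fun h => hf0 (htf' f h), ?_⟩
    rw [h0]
    exact hlamL
  -- the conclusion
  intro x0 hx0
  by_contra hne
  set W : AddSubgroup (G → B) :=
    { carrier := {f | ∃ b : B, f = Pi.single 1 (x0 * b)}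
      zero_mem' := ⟨0, by rw [mul_zero, Pi.single_zero]⟩
      add_mem' := by
        rintro _ _ ⟨b, rfl⟩ ⟨b', rfl⟩
        exact ⟨b + b', by rw [mul_add, Pi.single_add]⟩
      neg_mem' := by
        rintro _ ⟨b, rfl⟩
        exact ⟨-b, by rw [mul_neg, Pi.single_neg]⟩ } with hW
  have W_mr : RS σ W := by
    rintro _ ⟨b, rfl⟩ r
    refine ⟨b * r, ?_⟩
    funext g
    simp only [mr]
    by_cases hg : g = 1
    · subst hg
      rw [Pi.single_eq_same, Pi.single_eq_same, h1, mul_assoc]
    · rw [Pi.single_eq_of_ne hg, Pi.single_eq_of_ne hg, zero_mul]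
  obtain ⟨f, ⟨b, rfl⟩, hf0, hfL⟩ := hEss W W_mr ⟨Pi.single 1 (x0 * 1), ⟨1, rfl⟩, by
    rw [mul_one]
    intro h
    have := congrFun h 1
    rw [Pi.single_eq_same] at this
    exact hne this⟩
  have hc : ∀ x ∈ X, (x0 * b) * x = 0 := by
    intro x hx
    have := (memL _).1 hfL x hx
    rw [Finset.sum_eq_single 1] at this
    · rw [Pi.single_eq_same, h1] at this
      exact this
    · intro g _ hg
      rw [Pi.single_eq_of_ne hg, zero_mul]
    · intro h
      exact absurd (Finset.mem_univ _) h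
  apply hf0
  have : x0 * b = 0 := by
    refine hsp _ fun r => ?_
    have := hc (r * x0) (X.mul_mem_left r hx0)
    calc x0 * b * r * (x0 * b) = (x0 * b * (r * x0)) * b := by simp only [mul_assoc]
      _ = 0 := by rw [this, zero_mul]
  rw [this, Pi.single_zero]

private theorem prod_mem_left (I : Ideal B) : ∀ l : List B, l ≠ [] → (∀ b ∈ l, b ∈ I) → l.prod ∈ I := by
  intro l
  induction l with
  | nil => intro h; exact absurd rfl h
  | cons b t ih =>
    intro _ h
    rw [List.prod_cons]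
    by_cases ht : t = []
    · subst ht
      rw [List.prod_nil, mul_one]
      exact h b List.mem_cons_self
    · exact I.mul_mem_left b (ih ht fun c hc => h c (List.mem_cons_of_mem b hc))

/-- In a semiprime ring without `|G|`-torsion a `G`-stable left ideal whose fixed elements form a
nilpotent ring is zero. -/
private theorem semiprime_fixed (σ : G → B →+* B) (h1 : ∀ b, σ 1 b = b)
    (hm : ∀ g h b, σ (g * h) b = σ g (σ h b))
    (hsp : ∀ a : B, (∀ r, a * r * a = 0) → a = 0)
    (htf : ∀ b : B, Fintype.card G • b = 0 → b = 0)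
    (I : Ideal B) (hG : ∀ g : G, ∀ x ∈ I, σ g x ∈ I) (m : ℕ)
    (hnil : ∀ l : List B, l.length = m → (∀ b ∈ l, b ∈ I ∧ ∀ g, σ g b = b) → l.prod = 0) :
    ∀ x ∈ I, x = 0 := by
  have htr : ∀ y ∈ I, (∑ g, σ g y) ∈ I ∧ ∀ k, σ k (∑ g, σ g y) = ∑ g, σ g y := by
    intro y hy
    refine ⟨I.sum_mem fun g _ => hG g y hy, fun k => ?_⟩
    rw [map_sum]
    refine Fintype.sum_equiv (Equiv.mulLeft k) _ _ fun g => ?_
    rw [Equiv.coe_mulLeft, hm]
  have step : ∀ m : ℕ, 1 ≤ m →
      (∀ l : List B, l.length = m + 1 → (∀ b ∈ l, b ∈ I ∧ ∀ g, σ g b = b) → l.prod = 0) →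
      ∀ l : List B, l.length = m → (∀ b ∈ l, b ∈ I ∧ ∀ g, σ g b = b) → l.prod = 0 := by
    intro m hm1 h l hl hlI
    have hne : l ≠ [] := by
      rintro rfl
      rw [List.length_nil] at hl
      omega
    have haI : l.prod ∈ I := prod_mem_left I l hne fun b hb => (hlI b hb).1
    have hafix : ∀ g, σ g l.prod = l.prod := by
      intro g
      rw [map_list_prod]
      congr 1
      rw [List.map_congr_left (g := id) fun b hb => (hlI b hb).2 g, List.map_id]
    refine semiprime_left σ h1 hm hsp htf (Ideal.span {l.prod}) ?_ ?_ _ (Ideal.mem_span_singleton_self _)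
    · intro g x hx
      obtain ⟨r, rfl⟩ := Ideal.mem_span_singleton'.1 hx
      rw [map_mul, hafix]
      exact Ideal.mem_span_singleton'.2 ⟨_, rfl⟩
    · intro x hx y hy
      obtain ⟨r, rfl⟩ := Ideal.mem_span_singleton'.1 hx
      have hyI : y ∈ I := by
        obtain ⟨s, rfl⟩ := Ideal.mem_span_singleton'.1 hy
        exact I.mul_mem_left s haI
      obtain ⟨t1, t2⟩ := htr y hyI
      have h3 : (l ++ [∑ g, σ g y]).prod = 0 := by
        refine h _ (by rw [List.length_append, hl]; rfl) ?_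
        intro b hb
        rcases List.mem_append.1 hb with hb | hb
        · exact hlI b hb
        · rw [List.mem_singleton] at hb
          subst hb
          exact ⟨t1, t2⟩
      rw [List.prod_append, List.prod_singleton] at h3
      rw [mul_assoc, h3, mul_zero]
  have hall : ∀ m : ℕ,
      (∀ l : List B, l.length = m + 1 → (∀ b ∈ l, b ∈ I ∧ ∀ g, σ g b = b) → l.prod = 0) →
      ∀ b ∈ I, (∀ g, σ g b = b) → b = 0 := by
    intro m
    induction m with
    | zero =>
      intro h b hb hf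
      have := h [b] rfl (fun c hc => by
        rw [List.mem_singleton] at hc
        subst hc
        exact ⟨hb, hf⟩)
      rwa [List.prod_singleton] at this
    | succ m ih =>
      intro h
      exact ih (step (m + 1) (by omega) h)
  have hfix : ∀ b ∈ I, (∀ g, σ g b = b) → b = 0 := by
    rcases Nat.eq_zero_or_pos m with hm0 | hm0
    · intro b _ _
      have h10 : (1 : B) = 0 := by
        have := hnil [] hm0.symm (fun b hb => absurd hb List.not_mem_nil)
        rwa [List.prod_nil] at this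
      rw [← one_mul b, h10, zero_mul]
    · obtain ⟨k, rfl⟩ : ∃ k, m = k + 1 := ⟨m - 1, by omega⟩
      exact hall k hnil
  refine semiprime_left σ h1 hm hsp htf I hG ?_
  intro x _ y hy
  obtain ⟨t1, t2⟩ := htr y hy
  rw [hfix _ t1 t2, mul_zero]

/-- If the elements of `I` fixed by `G` form a nilpotent ring, then `I` is nil. -/
private theorem nil_of_fixed {A : Type} [Ring A] (σ : G → A →+* A) (h1 : ∀ b, σ 1 b = b)
    (hm : ∀ g h b, σ (g * h) b = σ g (σ h b))
    (hunit : ∃ c : A, (Fintype.card G : A) * c = 1)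
    (I : Ideal A) (hG : ∀ g : G, ∀ x ∈ I, σ g x ∈ I) (m : ℕ)
    (hnil : ∀ l : List A, l.length = m → (∀ b ∈ l, b ∈ I ∧ ∀ g, σ g b = b) → l.prod = 0)
    {x : A} (hx : x ∈ I) : IsNilpotent x := by
  classical
  by_contra hcon
  have hpow : ∀ k : ℕ, x ^ k ≠ 0 := fun k hk => hcon ⟨k, hk⟩
  -- an ideal maximal with respect to avoiding the powers of `x`
  obtain ⟨P, hP⟩ : ∃ P : Ideal A, Maximal (fun P => (∀ y ∈ P, ∀ a, y * a ∈ P) ∧ ∀ k : ℕ, x ^ k ∉ P) P := by
    have h0 : (⊥ : Ideal A) ∈ {P : Ideal A | (∀ y ∈ P, ∀ a, y * a ∈ P) ∧ ∀ k : ℕ, x ^ k ∉ P} := by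
      refine ⟨fun y hy a => ?_, fun k hk => hpow k ?_⟩
      · rw [Ideal.mem_bot] at hy ⊢
        rw [hy, zero_mul]
      · rwa [Ideal.mem_bot] at hk
    have hch : ∀ c ⊆ {P : Ideal A | (∀ y ∈ P, ∀ a, y * a ∈ P) ∧ ∀ k : ℕ, x ^ k ∉ P},
        IsChain (· ≤ ·) c → ∀ y ∈ c,
        ∃ ub ∈ {P : Ideal A | (∀ y ∈ P, ∀ a, y * a ∈ P) ∧ ∀ k : ℕ, x ^ k ∉ P}, ∀ z ∈ c, z ≤ ub := by
      intro c hc hch y hy
      have hdir : DirectedOn (· ≤ ·) c := hch.directedOn
      have hne : c.Nonempty := ⟨y, hy⟩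
      refine ⟨sSup c, ⟨?_, ?_⟩, fun z hz => le_sSup hz⟩
      · intro f hf r
        rw [Submodule.mem_sSup_of_directed hne hdir] at hf ⊢
        obtain ⟨W, hW, hfW⟩ := hf
        exact ⟨W, hW, (hc hW).1 f hfW r⟩
      · intro k hk
        rw [Submodule.mem_sSup_of_directed hne hdir] at hk
        obtain ⟨W, hW, hfW⟩ := hk
        exact (hc hW).2 k hfW
    obtain ⟨P, -, hP⟩ := zorn_le_nonempty₀ _ hch ⊥ h0
    exact ⟨P, hP⟩
  obtain ⟨hP1, hP2⟩ := hP.prop
  -- `P` is semiprime
  have hPs : ∀ a : A, (∀ r, a * r * a ∈ P) → a ∈ P := by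
    intro a ha
    by_contra haP
    have grow : ∀ P' : Ideal A, (∀ y ∈ P', ∀ b, y * b ∈ P') → P ≤ P' → a ∈ P' → ∃ k : ℕ, x ^ k ∈ P' := by
      intro P' h2 h3 h4
      by_contra hno
      push Not at hno
      exact haP (hP.le_of_ge ⟨h2, hno⟩ h3 h4)
    obtain ⟨k, hk⟩ := grow
      { carrier := {y | ∀ r, y * r * a ∈ P}
        zero_mem' := fun r => by rw [zero_mul, zero_mul]; exact P.zero_mem
        add_mem' := fun {y z} hy hz r => by
          rw [add_mul, add_mul]
          exact P.add_mem (hy r) (hz r)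
        smul_mem' := fun c y hy r => by
          rw [smul_eq_mul, mul_assoc, mul_assoc, ← mul_assoc y]
          exact P.mul_mem_left c (hy r) }
      (fun y hy b r => by
        have := hy (b * r)
        rwa [← mul_assoc] at this)
      (fun y hy r => hP1 _ (hP1 y hy r) a) ha
    obtain ⟨j, hj⟩ := grow
      { carrier := {z | ∀ r, x ^ k * r * z ∈ P}
        zero_mem' := fun r => by rw [mul_zero]; exact P.zero_mem
        add_mem' := fun {y z} hy hz r => by
          rw [mul_add]
          exact P.add_mem (hy r) (hz r)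
        smul_mem' := fun c y hy r => by
          have := hy (r * c)
          rw [smul_eq_mul, ← mul_assoc]
          rwa [← mul_assoc] at this }
      (fun y hy b r => by
        rw [← mul_assoc]
        exact hP1 _ (hy r) b)
      (fun y hy r => P.mul_mem_left _ hy) hk
    have h5 := hj 1
    rw [mul_one, ← pow_add] at h5
    exact hP2 _ h5
  -- the largest `G`-stable ideal in `P`
  set Q : Ideal A :=
    { carrier := {y | ∀ g : G, σ g y ∈ P}
      zero_mem' := fun g => by rw [map_zero]; exact P.zero_mem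
      add_mem' := fun {y z} hy hz g => by
        rw [map_add]
        exact P.add_mem (hy g) (hz g)
      smul_mem' := fun c y hy g => by
        rw [smul_eq_mul, map_mul]
        exact P.mul_mem_left _ (hy g) } with hQ
  have memQ : ∀ y, y ∈ Q ↔ ∀ g : G, σ g y ∈ P := fun y => Iff.rfl
  have hQ2 : Q.IsTwoSided := ⟨fun {a} b ha g => by
    rw [map_mul]
    exact hP1 _ (ha g) _⟩
  have hQG : ∀ g : G, ∀ y ∈ Q, σ g y ∈ Q := by
    intro g y hy h
    rw [← hm]
    exact hy _
  have hQs : ∀ a : A, (∀ r, a * r * a ∈ Q) → a ∈ Q := by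
    intro a ha g
    refine hPs _ fun r => ?_
    have h2 := ha (σ g⁻¹ r) g
    rw [map_mul, map_mul, ← hm g, mul_inv_cancel, h1] at h2
    exact h2
  -- the action on the quotient
  set τ : G → (A ⧸ Q) →+* (A ⧸ Q) := fun g =>
    Ideal.Quotient.lift Q ((Ideal.Quotient.mk Q).comp (σ g)) (fun a ha => by
      rw [RingHom.comp_apply, Ideal.Quotient.eq_zero_iff_mem]
      exact hQG g a ha) with hτ
  have hτmk : ∀ g a, τ g (Ideal.Quotient.mk Q a) = Ideal.Quotient.mk Q (σ g a) := by
    intro g a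
    rw [hτ]
    simp only [Ideal.Quotient.lift_mk, RingHom.comp_apply]
  have hsurj := Ideal.Quotient.mk_surjective (I := Q)
  obtain ⟨c, hc⟩ := hunit
  have htfQ : ∀ b : A ⧸ Q, Fintype.card G • b = 0 → b = 0 := by
    intro b hb
    obtain ⟨a, rfl⟩ := hsurj b
    have h2 : (Fintype.card G : A) * a ∈ Q := by
      rw [← Ideal.Quotient.eq_zero_iff_mem, ← nsmul_eq_mul, map_nsmul]
      exact hb
    have h3 := Q.mul_mem_left c h2
    rw [← mul_assoc, ← (Nat.cast_commute (Fintype.card G) c).eq, hc, one_mul] at h3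
    exact Ideal.Quotient.eq_zero_iff_mem.2 h3
  have key := semiprime_fixed (B := A ⧸ Q) τ ?_ ?_ ?_ htfQ (I.map (Ideal.Quotient.mk Q)) ?_ m ?_
    (Ideal.Quotient.mk Q x) (Ideal.mem_map_of_mem _ hx)
  · rw [Ideal.Quotient.eq_zero_iff_mem] at key
    have h2 := key 1
    rw [h1, ← pow_one x] at h2
    exact hP2 1 h2
  · intro b
    obtain ⟨a, rfl⟩ := hsurj b
    rw [hτmk, h1]
  · intro g h b
    obtain ⟨a, rfl⟩ := hsurj b
    rw [hτmk, hτmk, hτmk, hm]
  · intro b hb
    obtain ⟨a, rfl⟩ := hsurj b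
    rw [Ideal.Quotient.eq_zero_iff_mem]
    refine hQs a fun r => ?_
    rw [← Ideal.Quotient.eq_zero_iff_mem, map_mul, map_mul]
    exact hb _
  · intro g b hb
    obtain ⟨a, ha, rfl⟩ := (Ideal.mem_map_iff_of_surjective _ hsurj).1 hb
    rw [hτmk]
    exact Ideal.mem_map_of_mem _ (hG g a ha)
  · intro l hl hlI
    have hlift : ∀ b ∈ l, ∃ a : A, (a ∈ I ∧ ∀ g, σ g a = a) ∧ Ideal.Quotient.mk Q a = b := by
      intro b hb
      obtain ⟨hb1, hb2⟩ := hlI b hb
      obtain ⟨a, ha, rfl⟩ := (Ideal.mem_map_iff_of_surjective _ hsurj).1 hb1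
      refine ⟨c * ∑ g, σ g a, ⟨I.mul_mem_left c (I.sum_mem fun g _ => hG g a ha), fun k => ?_⟩, ?_⟩
      · have hck : σ k c = c := by
          have h2 : (Fintype.card G : A) * σ k c = 1 := by
            have := congrArg (σ k) hc
            rwa [map_mul, map_natCast, map_one] at this
          calc σ k c = c * ((Fintype.card G : A) * σ k c) := by
                rw [← mul_assoc, ← (Nat.cast_commute (Fintype.card G) c).eq, hc, one_mul]
            _ = c := by rw [h2, mul_one]
        rw [map_mul, hck, map_sum]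
        congr 1
        refine Fintype.sum_equiv (Equiv.mulLeft k) _ _ fun g => ?_
        rw [Equiv.coe_mulLeft, hm]
      · rw [map_mul, map_sum]
        have h3 : ∀ g, Ideal.Quotient.mk Q (σ g a) = Ideal.Quotient.mk Q a := by
          intro g
          rw [← hτmk]
          exact hb2 g
        rw [Finset.sum_congr rfl fun g _ => h3 g, Finset.sum_const, Finset.card_univ, nsmul_eq_mul,
          ← mul_assoc, ← map_natCast (Ideal.Quotient.mk Q) (Fintype.card G), ← map_mul,
          ← (Nat.cast_commute (Fintype.card G) c).eq, hc, map_one, one_mul]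
    choose! f hf1 hf2 using hlift
    have h4 : l = (l.map f).map (Ideal.Quotient.mk Q) := by
      rw [List.map_map]
      conv_lhs => rw [← List.map_id l]
      refine List.map_congr_left fun b hb => ?_
      rw [Function.comp_apply, hf2 b hb, id]
    rw [h4, ← map_list_prod, hnil (l.map f) (by rw [List.length_map, hl]) ?_, map_zero]
    intro b hb
    obtain ⟨b', hb', rfl⟩ := List.mem_map.1 hb
    exact hf1 b' hb'

end maschke

/-- Let `Γ` act on the ring `A` with finite orbits and let `N` be a `Γ`-stable left ideal whose fixed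
elements form a nilpotent ring. Then `N` is nil. -/
private theorem nil_of_orbits {A Γ : Type} [Ring A] [Algebra ℚ A] [Group Γ] [MulSemiringAction Γ A]
    (horb : ∀ a : A, (MulAction.orbit Γ a).Finite) (N : Ideal A)
    (hN : ∀ γ : Γ, ∀ x ∈ N, γ • x ∈ N) (m : ℕ)
    (hnil : ∀ l : List A, l.length = m → (∀ b ∈ l, b ∈ N ∧ ∀ γ : Γ, γ • b = b) → l.prod = 0)
    {x : A} (hx : x ∈ N) : IsNilpotent x := by
  classical
  have hfin : (MulAction.stabilizer Γ x).FiniteIndex := by
    refine ⟨?_⟩
    rw [MulAction.index_stabilizer]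
    have hne : (MulAction.orbit Γ x).Nonempty := ⟨x, MulAction.mem_orbit_self x⟩
    exact (Set.ncard_pos (horb x)).2 hne |>.ne'
  set U : Subgroup Γ := (MulAction.stabilizer Γ x).normalCore with hU
  have hUn : U.Normal := Subgroup.normalCore_normal _
  have hUf : U.FiniteIndex := Subgroup.finiteIndex_normalCore _
  have hUx : ∀ u ∈ U, u • x = x := fun u hu => (Subgroup.normalCore_le _ hu : u ∈ MulAction.stabilizer Γ x)
  let hft : Fintype (Γ ⧸ U) := Fintype.ofFinite _
  set A' : Subring A :=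
    { carrier := {a | ∀ u ∈ U, u • a = a}
      mul_mem' := fun {a b} ha hb u hu => by rw [smul_mul', ha u hu, hb u hu]
      one_mem' := fun u _ => smul_one u
      add_mem' := fun {a b} ha hb u hu => by rw [smul_add, ha u hu, hb u hu]
      zero_mem' := fun u _ => smul_zero u
      neg_mem' := fun {a} ha u hu => by rw [smul_neg, ha u hu] } with hA'
  have memA' : ∀ a, a ∈ A' ↔ ∀ u ∈ U, u • a = a := fun a => Iff.rfl
  have hstab : ∀ (γ : Γ), ∀ a ∈ A', MulSemiringAction.toRingHom Γ A γ a ∈ A' := by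
    intro γ a ha u hu
    rw [MulSemiringAction.toRingHom_apply]
    have h2 : γ⁻¹ * u * γ ∈ U := by
      have := hUn.conj_mem u hu γ⁻¹
      rwa [inv_inv] at this
    have h3 := ha _ h2
    calc u • γ • a = γ • ((γ⁻¹ * u * γ) • a) := by
          rw [← mul_smul, ← mul_smul]
          congr 1
          group
      _ = γ • a := by rw [h3]
  set σ : (Γ ⧸ U) → A' →+* A' := fun q =>
    (MulSemiringAction.toRingHom Γ A q.out).restrict A' A' (hstab q.out) with hσ
  have hσa : ∀ q (a : A'), ((σ q a : A') : A) = q.out • (a : A) := fun q a => rfl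
  have hout : ∀ (γ : Γ) (a : A'), (QuotientGroup.mk γ : Γ ⧸ U).out • (a : A) = γ • (a : A) := by
    intro γ a
    have h2 : (QuotientGroup.mk γ : Γ ⧸ U).out⁻¹ * γ ∈ U := by
      rw [← QuotientGroup.eq, QuotientGroup.out_eq']
    have h3 := a.2 _ h2
    rw [mul_smul] at h3
    conv_lhs => rw [← h3]
    rw [smul_inv_smul]
  have hcard : ((Fintype.card (Γ ⧸ U) : ℕ) : ℚ) ≠ 0 := by
    have : 0 < Fintype.card (Γ ⧸ U) := Fintype.card_pos
    exact_mod_cast this.ne'
  have key := nil_of_fixed (A := A') σ ?_ ?_ ?_ (N.comap A'.subtype) ?_ m ?_ (x := ⟨x, hUx⟩) hx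
  · obtain ⟨k, hk⟩ := key
    exact ⟨k, congrArg Subtype.val hk⟩
  · intro b
    refine Subtype.ext ?_
    rw [hσa, ← QuotientGroup.mk_one, hout, one_smul]
  · intro g h b
    refine Subtype.ext ?_
    have h2 : (g * h : Γ ⧸ U) = QuotientGroup.mk (g.out * h.out) := by
      rw [QuotientGroup.mk_mul, QuotientGroup.out_eq', QuotientGroup.out_eq']
    rw [hσa, hσa, hσa, h2, hout, mul_smul]
  · have hmem : algebraMap ℚ A ((Fintype.card (Γ ⧸ U) : ℕ) : ℚ)⁻¹ ∈ A' := by
      intro u _
      exact RingHom.map_rat_algebraMap (MulSemiringAction.toRingHom Γ A u) _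
    refine ⟨⟨_, hmem⟩, Subtype.ext ?_⟩
    rw [Subring.coe_mul, Subring.coe_natCast, Subring.coe_one, ← map_natCast (algebraMap ℚ A),
      ← map_mul, mul_inv_cancel₀ hcard, map_one]
  · intro g b hb
    exact hN _ _ hb
  · intro l hl hlI
    have h2 := hnil (l.map A'.subtype) (by rw [List.length_map, hl]) (by
      intro b hb
      obtain ⟨a, ha, rfl⟩ := List.mem_map.1 hb
      obtain ⟨h3, h4⟩ := hlI a ha
      refine ⟨h3, fun γ => ?_⟩
      have h5 := congrArg Subtype.val (h4 (QuotientGroup.mk γ))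
      rw [hσa, hout] at h5
      exact h5)
    rw [← map_list_prod] at h2
    exact Subtype.ext h2

/-! ### Chow-Kuenneth decompositions -/

section defs

variable {A : Type} [Ring A] (CH H : ℕ → Type) [∀ i, AddCommGroup (CH i)] [∀ i, Module A (CH i)]
  [∀ j, AddCommGroup (H j)] [∀ j, Module A (H j)]

/-- the self-correspondence `a` is homologically trivial: it acts as zero on cohomology -/
def HomTrivial (a : A) : Prop := ∀ (j : ℕ) (x : H j), a • x = 0

/-- `π 0, ..., π (2 d)` is a Chow-Kuenneth decomposition (and `π i = 0` beyond). -/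
structure IsCK (d : ℕ) (π : ℕ → A) : Prop where
  idem : ∀ i, π i * π i = π i
  orth : ∀ i j, i ≠ j → π i * π j = 0
  sum : ∑ i ∈ range (2 * d + 1), π i = 1
  top : ∀ i, 2 * d < i → π i = 0
  act : ∀ i (x : H i), π i • x = x
  act_ne : ∀ i j (x : H j), j ≠ i → π i • x = 0

/-- `F^k CH^i(X)` for the decomposition `π`: the image of `π^{2i-k} + ... + π^0`, and `0` if
`2i - k < 0`. -/
def F (π : ℕ → A) (k i : ℕ) : Set (CH i) :=
  if k ≤ 2 * i then Set.range fun w : CH i => (∑ m ∈ range (2 * i - k + 1), π m) • w else {0}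

/-- the conclusion of Murre's conjecture (B) for the decomposition `π` -/
def Murre (π : ℕ → A) : Prop := ∀ i, F CH π 0 i = Set.univ ∧ F CH π (i + 1) i = {0}

end defs

section ck

variable {A : Type} [Ring A] {CH H : ℕ → Type} [∀ i, AddCommGroup (CH i)] [∀ i, Module A (CH i)]
  [∀ j, AddCommGroup (H j)] [∀ j, Module A (H j)]

private theorem conj {d : ℕ} {π ρ : ℕ → A} (h : IsCK H d π) (h' : IsCK H d ρ)
    (hnil : ∀ a : A, HomTrivial H a → IsNilpotent a) :
    ∃ u : Aˣ, HomTrivial H ((u : A) - 1) ∧ ∀ m, ρ m = u * π m * ((u⁻¹ : Aˣ) : A) := by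
  set n : A := ∑ j ∈ range (2 * d + 1), (ρ j - π j) * π j with hn
  have hn0 : HomTrivial H n := by
    intro j x
    rw [hn, Finset.sum_smul]
    refine Finset.sum_eq_zero fun i _ => ?_
    rw [mul_smul]
    by_cases hij : j = i
    · subst hij
      rw [h.act, sub_smul, h.act, h'.act, sub_self]
    · rw [h.act_ne i j x hij, smul_zero]
  obtain ⟨u, hu⟩ := (hnil n hn0).isUnit_one_add
  have hu1 : (u : A) = ∑ j ∈ range (2 * d + 1), ρ j * π j := by
    rw [hu, hn, ← h.sum, ← Finset.sum_add_distrib]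
    refine Finset.sum_congr rfl fun j _ => ?_
    rw [sub_mul, h.idem]
    abel
  refine ⟨u, ?_, fun m => ?_⟩
  · rw [hu, add_sub_cancel_left]
    exact hn0
  · have key : ρ m * u = u * π m := by
      rw [hu1]
      by_cases hm : m ≤ 2 * d
      · rw [Finset.mul_sum, Finset.sum_mul, Finset.sum_eq_single m, Finset.sum_eq_single m]
        · rw [← mul_assoc, h'.idem, mul_assoc, h.idem]
        · intro j _ hj
          rw [mul_assoc, h.orth _ _ hj, mul_zero]
        · intro hm'
          rw [Finset.mem_range] at hm'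
          omega
        · intro j _ hj
          rw [← mul_assoc, h'.orth _ _ (Ne.symm hj), zero_mul]
        · intro hm'
          rw [Finset.mem_range] at hm'
          omega
      · rw [h'.top m (by omega), h.top m (by omega), zero_mul, mul_zero]
    rw [← key, mul_assoc, Units.mul_inv, mul_one]

private theorem F_conj {π ρ : ℕ → A} {u : Aˣ} (hu : ∀ m, ρ m = u * π m * ((u⁻¹ : Aˣ) : A)) (k i : ℕ) :
    F CH ρ k i = (fun w : CH i => (u : A) • w) '' F CH π k i := by
  have hsum : ∀ s : Finset ℕ, ∑ m ∈ s, ρ m = u * (∑ m ∈ s, π m) * ((u⁻¹ : Aˣ) : A) := by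
    intro s
    rw [Finset.mul_sum, Finset.sum_mul]
    exact Finset.sum_congr rfl fun m _ => hu m
  unfold F
  split_ifs with hk
  · ext z
    constructor
    · rintro ⟨w, rfl⟩
      refine ⟨_, ⟨((u⁻¹ : Aˣ) : A) • w, rfl⟩, ?_⟩
      dsimp only
      rw [hsum, mul_smul, mul_smul]
    · rintro ⟨_, ⟨w, rfl⟩, rfl⟩
      refine ⟨(u : A) • w, ?_⟩
      dsimp only
      rw [hsum, mul_smul, ← mul_smul _ (u : A), Units.inv_mul, one_smul, mul_smul]
  · rw [Set.image_singleton, smul_zero]

private theorem murre_conj {π ρ : ℕ → A} {u : Aˣ} (hu : ∀ m, ρ m = u * π m * ((u⁻¹ : Aˣ) : A))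
    (h : Murre CH π) : Murre CH ρ := by
  intro i
  obtain ⟨h1, h2⟩ := h i
  refine ⟨?_, ?_⟩
  · rw [F_conj hu, h1, Set.eq_univ_iff_forall]
    intro z
    refine ⟨((u⁻¹ : Aˣ) : A) • z, trivial, ?_⟩
    dsimp only
    rw [← mul_smul, Units.mul_inv, one_smul]
  · rw [F_conj hu, h2, Set.image_singleton, smul_zero]

end ck

/-- `A` is the ring of self-correspondences of degree 0 of `X` over an algebraic closure of the
field of definition `k`, with the action of the Galois group `Γ` of `k`. If the homologically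
trivial self-correspondences defined over `k` form a nilpotent ring, then all homologically trivial
self-correspondences are nilpotent, any two Chow-Kuenneth decompositions of `X` are conjugate, and
Murre's conjecture (B) holds for all of them as soon as it holds for one. -/
theorem result {A Γ : Type} [Ring A] [Algebra ℚ A] [Group Γ] [MulSemiringAction Γ A]
    (CH H : ℕ → Type) [∀ i, AddCommGroup (CH i)] [∀ i, Module A (CH i)]
    [∀ j, AddCommGroup (H j)] [∀ j, Module A (H j)] (d : ℕ)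
    (horb : ∀ a : A, (MulAction.orbit Γ a).Finite)
    (hhom : ∀ (γ : Γ) (a : A), HomTrivial H a → HomTrivial H (γ • a))
    (hgen : ∃ m : ℕ, ∀ l : List A, l.length = m →
      (∀ a ∈ l, HomTrivial H a ∧ ∀ γ : Γ, γ • a = a) → l.prod = 0) :
    (∀ a : A, HomTrivial H a → IsNilpotent a) ∧
    (∀ π ρ : ℕ → A, IsCK H d π → IsCK H d ρ →
      ∃ u : Aˣ, HomTrivial H ((u : A) - 1) ∧ ∀ m, ρ m = u * π m * ((u⁻¹ : Aˣ) : A)) ∧
    ((∃ π : ℕ → A, IsCK H d π ∧ Murre CH π) → ∀ ρ : ℕ → A, IsCK H d ρ → Murre CH ρ) := by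
  obtain ⟨m, hm⟩ := hgen
  have hnil : ∀ a : A, HomTrivial H a → IsNilpotent a := by
    intro a ha
    refine nil_of_orbits horb
      { carrier := {a : A | HomTrivial H a}
        zero_mem' := fun j x => zero_smul A x
        add_mem' := fun {a b} ha hb j x => by rw [add_smul, ha j x, hb j x, add_zero]
        smul_mem' := fun c a ha j x => by rw [smul_eq_mul, mul_smul, ha j x, smul_zero] }
      hhom m hm ha
  refine ⟨hnil, fun π ρ h h' => conj h h' hnil, ?_⟩
  rintro ⟨π, h, hM⟩ ρ h'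
  obtain ⟨u, -, hu⟩ := conj h h' hnil
  exact murre_conj hu hM

end Pool.Agent.Results.MP_d6e134_ag.GenericMembers
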