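import Pool.Agent.H72.CKTheory

/-!
# Murre's conjecture (B): the first half, and the middle degree

For a class `V` of connected smooth projective varieties, closed under products and hyperplane
sections, on which homological and numerical equivalence of correspondences agree (a `ChowTheory`),
the following are equivalent.

1. The conclusion of Q1 holds for all Chow-Kuenneth decompositions of all `X` in `V`.
2. Its first half, `F^0 CH^i(X) = CH^i(X)`, holds for all of them.
3. Its second half holds for all of them, and every `X` in `V` has a Chow-Kuenneth decomposition such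
   that `π^n` acts as zero on `CH^i(X)` for `2 ≤ i < n/2`, `n = dim X`.
4. There is no phantom, and every `X` in `V` has a Chow-Kuenneth decomposition as in 3.
5. There is no phantom, the restriction `CH^i(X) → CH^i(Y)` to a hyperplane section is injective if
   `2 ≤ i < (dim Y)/2`, and every `X` in `V` of dimension `2 i + 1 ≥ 5` has a Chow-Kuenneth
   decomposition such that `π^(2i+1)` acts as zero on `CH^i(X)`.
-/

open Finset CategoryTheory Pool.Agent.H72.CKTheory

namespace Pool.Agent.Results.MP_d6e134_ag.MiddleDegree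

/-- The equivalences for Q1. -/
theorem result (T : ChowTheory) : List.TFAE [
    ForAllCK T fun _ π => Murre T π,
    ForAllCK T fun _ π => FirstHalf T π,
    (ForAllCK T fun _ π => SecondHalf T π) ∧ ExistsCK T fun _ π => MiddleVanishes T π,
    NoPhantoms T ∧ ExistsCK T fun _ π => MiddleVanishes T π,
    NoPhantoms T ∧ ChowLefschetz T ∧ ExistsCK T fun _ π => CentreVanishes T π] := by
  have hA := secondHalf_tfae T
  have hgood : NoPhantoms T → NilEnd T ∧ ∀ X : T.V, ∃ π : ℕ → End X, IsCK T X π := by
    intro h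
    have hg := fun X : T.V => good_variety (homNoPh_of_noPhantoms h) _ X rfl
    exact ⟨nilEnd_of_good hg, fun X => (hg X).2⟩
  have h34 : (ForAllCK T fun _ π => SecondHalf T π) ↔ NoPhantoms T := hA.out 0 3
  have h24 : (ForAllCK T fun _ π => TopVanishes T π) ↔ NoPhantoms T := hA.out 2 3
  tfae_have 1 → 2 := fun h X π hπ i => (h X π hπ i).1
  tfae_have 3 ↔ 4 := by rw [h34]
  tfae_have 2 → 4 := by
    intro h
    have hP := h24.1 (top_of_first h)
    refine ⟨hP, fun X => ?_⟩
    obtain ⟨π, hπ⟩ := (hgood hP).2 X
    exact ⟨π, hπ, fun i _ hi z => smul_eq_zero_of_F0 hπ (h X π hπ i) hi z⟩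
  tfae_have 4 → 1 := by
    rintro ⟨hP, h⟩
    obtain ⟨hN, hC⟩ := hgood hP
    refine murre_all hN hC fun X π hπ _ i hi hi' z => ?_
    obtain ⟨σ, hσ, h1⟩ := h X
    exact vanish_of (hN X) (hπ.idem _) (isProj_of_isCK hπ _) (isProj_of_isCK hσ _)
      (fun z => h1 i hi hi' z) z
  tfae_have 1 → 5 := by
    intro h
    have hP := h24.1 (top_of_first fun X π hπ i => (h X π hπ i).1)
    obtain ⟨hN, hC⟩ := hgood hP
    refine ⟨hP, chowLefschetz_of_murre hN hC h, fun X => ?_⟩
    obtain ⟨π, hπ⟩ := hC X
    exact ⟨π, hπ, fun i _ hi z => smul_eq_zero_of_F0 hπ (h X π hπ i).1 (by omega) z⟩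
  tfae_have 5 → 1 := by
    rintro ⟨hP, hL, h⟩
    obtain ⟨hN, hC⟩ := hgood hP
    refine murre_all hN hC fun X π hπ hY i hi hi' z => ?_
    by_cases h1 : 2 * i + 1 = T.dim X
    · obtain ⟨σ, hσ, h2⟩ := h X
      exact vanish_of (hN X) (hπ.idem _) (isProj_of_isCK hπ _) (isProj_of_isCK hσ _)
        (fun z => h2 i hi h1 z) z
    · exact middle_of_chowLefschetz hN hC hL hπ hY hi (by omega) z
  tfae_finish

end Pool.Agent.Results.MP_d6e134_ag.MiddleDegree
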