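import Pool.Agent.H72.CKTheory

/-!
# Murre's conjecture (B): the second half and finite-dimensionality

For a class `V` of connected smooth projective varieties, closed under products and hyperplane
sections, on which homological and numerical equivalence of correspondences agree (a `ChowTheory`),
the following are equivalent.

1. `F^(i+1) CH^i(X) = 0` for all `i` and all Chow-Kuenneth decompositions of all `X` in `V` (the
   second half of the conclusion of Q1).
2. `π^0` acts as zero on `CH^i(X)`, `i > 0`, for all of them.
3. `π^(2n)` acts as zero on `CH^i(X)`, `i < n = dim X`, for all of them.
4. There is no phantom.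
5. Every `X` in `V` has a Chow-Kuenneth decomposition, with all `h^j(X)` finite dimensional.
6. Products of `B(X)` homologically trivial endomorphisms of `h(X)` are zero.
7. Homologically trivial endomorphisms of `h(X)` are nilpotent.
8. Every `X` in `V` has a Chow-Kuenneth decomposition to which all others are conjugate.
-/

open Finset CategoryTheory Pool.Agent.H72.CKTheory

namespace Pool.Agent.Results.MP_d6e134_ag.SecondHalfKimura

/-- The equivalences for the second half. -/
theorem result (T : ChowTheory) : List.TFAE [
    ForAllCK T fun _ π => SecondHalf T π,
    ForAllCK T fun _ π => ZeroVanishes T π,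
    ForAllCK T fun _ π => TopVanishes T π,
    NoPhantoms T,
    ExistsCK T fun _ π => ∀ j, FiniteDim π j,
    NilIdeals T,
    NilEnd T,
    ExistsCK T fun X π => ∀ ρ : ℕ → End X, IsCK T X ρ → ConjTo π ρ] := secondHalf_tfae T

end Pool.Agent.Results.MP_d6e134_ag.SecondHalfKimura
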