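import Pool.Agent.Results.MP_d6e134_ag.GenericMembers

/-!
Murre's conjecture (B) for all Chow-Kuenneth decompositions of very general complete intersections in
a variety with finite-dimensional motive: existence of Chow-Kuenneth decompositions, the second half
of Q1 for all of them, the first half in codimension `≤ 1` and `≥ n/2`, and the equivalence of Q1 with
the Lefschetz property of Chow groups in the remaining codimensions.
-/

set_option autoImplicit false

open CategoryTheory Finset

namespace Pool.Agent.Results.MP_d6e134_ag.WeakLefschetz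

universe u

section defs

variable {C : Type u} [Category.{0} C] [Preadditive C]

/-- the endomorphism `a` is homologically trivial: it acts as zero on cohomology -/
def HomTrivial (H : ℕ → C ⥤ ModuleCat.{0} ℚ) {X : C} (a : End X) : Prop := ∀ j, (H j).map a = 0

/-- `a : End X` is a Kuenneth projector of degree `j` up to homological equivalence: it acts as the
identity on `H^j` and as zero on the other `H^k`. -/
def Kuenneth (H : ℕ → C ⥤ ModuleCat.{0} ℚ) {X : C} (j : ℕ) (a : End X) : Prop :=
  (H j).map a = 𝟙 _ ∧ ∀ k, k ≠ j → (H k).map a = 0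

/-- `π 0, ..., π (2 d)` is a Chow-Kuenneth decomposition of `X` (and `π i = 0` beyond). -/
structure IsCK (H : ℕ → C ⥤ ModuleCat.{0} ℚ) {X : C} (d : ℕ) (π : ℕ → End X) : Prop where
  idem : ∀ i, π i * π i = π i
  orth : ∀ i j, i ≠ j → π i * π j = 0
  sum : ∑ i ∈ range (2 * d + 1), π i = 1
  top : ∀ i, 2 * d < i → π i = 0
  act : ∀ i, (H i).map (π i) = 𝟙 _
  act_ne : ∀ i j, j ≠ i → (H j).map (π i) = 0

/-- `F^k CH^i(X)` for the decomposition `π`: the image of `π^{2i-k} + ... + π^0`, and `0` if
`2i - k < 0`. -/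
def F (CH : ℕ → C ⥤ ModuleCat.{0} ℚ) {X : C} (π : ℕ → End X) (k i : ℕ) : Set ((CH i).obj X) :=
  if k ≤ 2 * i then Set.range ((CH i).map (∑ m ∈ range (2 * i - k + 1), π m : End X)) else {0}

/-- the conclusion of Murre's conjecture (B) for the decomposition `π` of `X` -/
def Murre (CH : ℕ → C ⥤ ModuleCat.{0} ℚ) {X : C} (π : ℕ → End X) : Prop :=
  ∀ i, F CH π 0 i = Set.univ ∧ F CH π (i + 1) i = {0}

end defs

variable {C : Type u} [Category.{0} C] [Preadditive C]

/-- the action of the endomorphism ring -/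
private def act (T : C ⥤ ModuleCat.{0} ℚ) [T.Additive] (X : C) : End X →+* Module.End ℚ (T.obj X) where
  toFun a := (T.map a).hom
  map_one' := by
    rw [End.one_def, T.map_id]
    rfl
  map_mul' a b := by
    rw [End.mul_def, T.map_comp]
    rfl
  map_zero' := by
    have : T.map (0 : X ⟶ X) = 0 := T.map_zero X X
    exact congrArg ModuleCat.Hom.hom this
  map_add' a b := by
    have : T.map ((a : X ⟶ X) + b) = T.map a + T.map b := T.map_add
    exact congrArg ModuleCat.Hom.hom this

section ht

variable {H : ℕ → C ⥤ ModuleCat.{0} ℚ}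

private theorem ht_comp_left {X : C} {a : End X} (h : HomTrivial H a) (b : End X) :
    HomTrivial H (b * a) := by
  intro j
  rw [End.mul_def, (H j).map_comp, h j, Limits.zero_comp]

private theorem ht_comp_right {X : C} {a : End X} (h : HomTrivial H a) (b : End X) :
    HomTrivial H (a * b) := by
  intro j
  rw [End.mul_def, (H j).map_comp, h j, Limits.comp_zero]

variable [∀ j, (H j).Additive]

private theorem ht_sub {X : C} {a b : End X} (h : ∀ j, (H j).map a = (H j).map b) :
    HomTrivial H (a - b) := by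
  intro j
  have : (H j).map ((a : X ⟶ X) - b) = (H j).map a - (H j).map b := (H j).map_sub
  rw [show ((a - b : End X) : X ⟶ X) = (a : X ⟶ X) - b from rfl, this, h j, sub_self]

private theorem ht_zero {X : C} : HomTrivial H (0 : End X) := by
  intro j
  exact (H j).map_zero X X

private theorem ht_add {X : C} {a b : End X} (ha : HomTrivial H a) (hb : HomTrivial H b) :
    HomTrivial H (a + b) := by
  intro j
  have : (H j).map ((a : X ⟶ X) + b) = (H j).map a + (H j).map b := (H j).map_add
  rw [show ((a + b : End X) : X ⟶ X) = (a : X ⟶ X) + b from rfl, this, ha j, hb j, add_zero]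

private theorem ht_neg {X : C} {a : End X} (ha : HomTrivial H a) : HomTrivial H (-a) := by
  intro j
  have : (H j).map (-(a : X ⟶ X)) = -(H j).map a := (H j).map_neg
  rw [show ((-a : End X) : X ⟶ X) = -(a : X ⟶ X) from rfl, this, ha j, neg_zero]

/-- a homologically trivial perturbation of the identity is invertible, with inverse of the same kind -/
private theorem exists_inv {X : C} {ν : End X} (hν : HomTrivial H ν) (hn : IsNilpotent ν) :
    ∃ w : End X, w * (1 + ν) = 1 ∧ (1 + ν) * w = 1 ∧ HomTrivial H (w - 1) := by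
  obtain ⟨u, hu⟩ := hn.isUnit_one_add
  refine ⟨((u⁻¹ : (End X)ˣ) : End X), ?_, ?_, ?_⟩
  · rw [← hu, Units.inv_mul]
  · rw [← hu, Units.mul_inv]
  · have h1 : ((u⁻¹ : (End X)ˣ) : End X) * (1 + ν) = 1 := by rw [← hu, Units.inv_mul]
    have h2 : ((u⁻¹ : (End X)ˣ) : End X) - 1 = -(((u⁻¹ : (End X)ˣ) : End X) * ν) := by
      rw [mul_add, mul_one] at h1
      rw [← h1]
      abel
    rw [h2]
    exact ht_neg (ht_comp_left hν _)

end ht

section chow

variable (T : C ⥤ ModuleCat.{0} ℚ) [T.Additive]

private theorem map_mul {X : C} (a b : End X) (x : T.obj X) :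
    T.map (a * b : End X) x = T.map a (T.map b x) := by
  rw [End.mul_def, T.map_comp]
  rfl

private theorem map_add {X Y : C} (a b : X ⟶ Y) (x : T.obj X) :
    T.map (a + b) x = T.map a x + T.map b x := by
  rw [T.map_add]
  rfl

private theorem map_one {X : C} (x : T.obj X) : T.map (1 : End X) x = x := by
  rw [End.one_def, T.map_id]
  rfl

private theorem map_comp {X Y Z : C} (f : X ⟶ Y) (g : Y ⟶ Z) (x : T.obj X) :
    T.map (f ≫ g) x = T.map g (T.map f x) := by
  rw [T.map_comp]
  rfl

private theorem map_sum {X Y : C} (s : Finset ℕ) (f : ℕ → (X ⟶ Y)) (x : T.obj X) :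
    T.map (∑ m ∈ s, f m) x = ∑ m ∈ s, T.map (f m) x := by
  classical
  induction s using Finset.induction_on with
  | empty =>
    rw [Finset.sum_empty, Finset.sum_empty, T.map_zero]
    rfl
  | insert a s ha ih => rw [Finset.sum_insert ha, Finset.sum_insert ha, map_add, ih]

private theorem map_sub_of {X : C} {a b : End X} (x : T.obj X) :
    T.map (a - b : End X) x = T.map a x - T.map b x := by
  have h1 : T.map ((a : X ⟶ X) - b) = T.map a - T.map b := T.map_sub
  rw [show ((a - b : End X) : X ⟶ X) = (a : X ⟶ X) - b from rfl, h1]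
  rfl

private theorem map_shift {X : C} {a s : End X} {y : T.obj X} (h : T.map s y = y) :
    T.map (1 + (a - s) : End X) y = T.map a y := by
  have h1 : T.map (1 + (a - s) : End X) y = T.map (1 : End X) y + T.map (a - s : End X) y :=
    map_add T (1 : End X) (a - s : End X) y
  rw [h1, map_one, map_sub_of, h]
  abel

/-- a fixed vector of a nilpotent endomorphism is zero -/
private theorem eq_zero_of_fixed {X : C} {ν : End X} (hn : IsNilpotent ν) {x : T.obj X}
    (hx : T.map ν x = x) : x = 0 := by
  obtain ⟨k, hk⟩ := hn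
  have h1 : ∀ k : ℕ, T.map (ν ^ k : End X) x = x := by
    intro k
    induction k with
    | zero => rw [pow_zero, map_one]
    | succ k ih => rw [pow_succ, map_mul, hx, ih]
  have h2 := h1 k
  rw [hk] at h2
  rw [← h2]
  have : T.map (0 : X ⟶ X) = 0 := T.map_zero X X
  change T.map (0 : X ⟶ X) x = 0
  rw [this]
  rfl

end chow

section ck

variable {H CH : ℕ → C ⥤ ModuleCat.{0} ℚ} [∀ i, (CH i).Additive]

/-- the second half of the conclusion of Q1 in codimension `i` -/
private theorem F1_iff {X : C} {d : ℕ} {π : ℕ → End X} (h : IsCK H d π) (i : ℕ) :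
    F CH π (i + 1) i = {0} ↔ ∀ j, j < i → ∀ x : (CH i).obj X, (CH i).map (π j) x = 0 := by
  unfold F
  by_cases hi : i = 0
  · subst hi
    rw [if_neg (by omega)]
    simp
  rw [if_pos (by omega)]
  constructor
  · intro hF j hj x
    have h1 : (CH i).map (∑ m ∈ range (2 * i - (i + 1) + 1), π m : End X) ((CH i).map (π j) x) =
        (CH i).map (π j) x := by
      rw [← map_mul, Finset.sum_mul, Finset.sum_eq_single j]
      · rw [h.idem]
      · intro m _ hm
        exact h.orth _ _ hm
      · intro hm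
        rw [Finset.mem_range] at hm
        omega
    have h2 : (CH i).map (π j) x ∈ ({0} : Set ((CH i).obj X)) := by
      rw [← hF]
      exact ⟨_, h1⟩
    exact h2
  · intro hv
    ext y
    rw [Set.mem_singleton_iff]
    constructor
    · rintro ⟨x, rfl⟩
      refine (map_sum (CH i) _ (fun m => (π m : X ⟶ X)) x).trans ?_
      refine Finset.sum_eq_zero fun m hm => ?_
      rw [Finset.mem_range] at hm
      exact hv m (by omega) x
    · rintro rfl
      exact ⟨0, _root_.map_zero _⟩

/-- if the projectors of degree `≥ s` kill `x`, the sum of the others fixes it -/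
private theorem sum_proj {X : C} {d : ℕ} {π : ℕ → End X} (h : IsCK H d π) {i s : ℕ}
    {x : (CH i).obj X} (hv : ∀ m, s ≤ m → (CH i).map (π m) x = 0) :
    (CH i).map (∑ m ∈ range s, π m : End X) x = x := by
  have h1 : x = ∑ m ∈ range (2 * d + 1), (CH i).map (π m) x := by
    rw [← map_sum]
    have := h.sum
    rw [show (∑ m ∈ range (2 * d + 1), (π m : X ⟶ X)) = (1 : End X) from this, map_one]
  have h2 : ∀ s t : ℕ, (∀ m, s ≤ m → (CH i).map (π m) x = 0) → s ≤ t →
      ∑ m ∈ range t, (CH i).map (π m) x = ∑ m ∈ range s, (CH i).map (π m) x := by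
    intro s t hs hst
    symm
    refine Finset.sum_subset (Finset.range_subset_range.2 hst) fun m _ hm => ?_
    rw [Finset.mem_range, not_lt] at hm
    exact hs m hm
  have h3 : ∀ m, 2 * d + 1 ≤ m → (CH i).map (π m) x = 0 := by
    intro m hm
    rw [h.top m (by omega)]
    have : (CH i).map (0 : X ⟶ X) = 0 := (CH i).map_zero X X
    change (CH i).map (0 : X ⟶ X) x = 0
    rw [this]
    rfl
  have h5 := map_sum (CH i) (range s) (fun m => (π m : X ⟶ X)) x
  refine h5.trans ?_
  conv_rhs => rw [h1]
  rw [← h2 s (max s (2 * d + 1)) hv (le_max_left _ _),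
    ← h2 (2 * d + 1) (max s (2 * d + 1)) h3 (le_max_right _ _)]

/-- the first half of the conclusion of Q1 in codimension `i` -/
private theorem F0_iff {X : C} {d : ℕ} {π : ℕ → End X} (h : IsCK H d π) (i : ℕ) :
    F CH π 0 i = Set.univ ↔ ∀ j, 2 * i < j → ∀ x : (CH i).obj X, (CH i).map (π j) x = 0 := by
  unfold F
  rw [if_pos (Nat.zero_le _)]
  constructor
  · intro hF j hj x
    obtain ⟨y, hy⟩ := hF.symm ▸ Set.mem_univ x
    rw [← hy, ← map_mul, Finset.mul_sum, Finset.sum_eq_zero]
    · have : (CH i).map (0 : X ⟶ X) = 0 := (CH i).map_zero X X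
      change (CH i).map (0 : X ⟶ X) y = 0
      rw [this]
      rfl
    · intro m hm
      rw [Finset.mem_range] at hm
      exact h.orth _ _ (by omega)
  · intro hv
    rw [Set.eq_univ_iff_forall]
    intro x
    exact ⟨x, sum_proj h fun m hm => hv m (by omega) x⟩

end ck

/-- pairs of elements -/
private theorem pairs (H : ℕ → C ⥤ ModuleCat.{0} ℚ) {P : C} (S : End P → Prop)
    (hS : ∀ a b : End P, S a → S b → HomTrivial H (a * b)) :
    ∀ (m : ℕ) (l : List (End P)), l.length = 2 * m → (∀ a ∈ l, S a) →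
      ∃ l' : List (End P), l'.length = m ∧ (∀ a ∈ l', HomTrivial H a) ∧ l'.prod = l.prod := by
  intro m
  induction m with
  | zero =>
    intro l hl _
    have h0 : l = [] := List.eq_nil_of_length_eq_zero (by simpa using hl)
    subst h0
    exact ⟨[], rfl, fun a ha => absurd ha List.not_mem_nil, rfl⟩
  | succ m ih =>
    intro l hl hlS
    match l, hl, hlS with
    | a :: b :: t, hl, hlS =>
      obtain ⟨l', h1, h2, h3⟩ := ih t (by simp only [List.length_cons] at hl; omega)
        (fun c hc => hlS c (List.mem_cons_of_mem _ (List.mem_cons_of_mem _ hc)))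
      refine ⟨(a * b) :: l', by rw [List.length_cons, h1], ?_, ?_⟩
      · intro c hc
        rcases List.mem_cons.1 hc with rfl | hc
        · exact hS a b (hlS a List.mem_cons_self) (hlS b (List.mem_cons_of_mem _ List.mem_cons_self))
        · exact h2 c hc
      · rw [List.prod_cons, List.prod_cons, List.prod_cons, h3, mul_assoc]

/-- the endomorphism `i^* α i_*` of `X` -/
private def phi {X P P' : C} (iu : P ⟶ X) (il : X ⟶ P') (α : P' ⟶ P) : End X := il ≫ α ≫ iu

/-- the endomorphism `α i_* i^*` of `P` -/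
private def eps {X P P' : C} (iu : P ⟶ X) (il : X ⟶ P') (α : P' ⟶ P) : End P := iu ≫ il ≫ α

private theorem phi_mul {X P P' : C} (iu : P ⟶ X) (il : X ⟶ P') (α β : P' ⟶ P) (e : End P) :
    phi iu il α * phi iu il (β ≫ e) = phi iu il (β ≫ (eps iu il α * e : End P)) := by
  rw [End.mul_def, End.mul_def]
  simp only [phi, eps, Category.assoc]

/-- nilpotence and conjugacy -/
private theorem nil_conj (H : ℕ → C ⥤ ModuleCat.{0} ℚ) [∀ j, (H j).Additive] [Linear ℚ C]
    {X P P' : C} (iu : P ⟶ X) (il : X ⟶ P')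
    {Γ : Type} [Group Γ] [MulSemiringAction Γ (End X)] (d : ℕ)
    (horb : ∀ a : End X, (MulAction.orbit Γ a).Finite)
    (hhom : ∀ (γ : Γ) (a : End X), HomTrivial H a → HomTrivial H (γ • a))
    (hP : ∃ m : ℕ, ∀ l : List (End P), l.length = m → (∀ a ∈ l, HomTrivial H a) → l.prod = 0)
    (hgen : ∀ a : End X, (∀ γ : Γ, γ • a = a) → HomTrivial H a → ∃ α : P' ⟶ P, a = il ≫ α ≫ iu) :
    (∀ a : End X, HomTrivial H a → IsNilpotent a) ∧
    (∀ π ρ : ℕ → End X, IsCK H d π → IsCK H d ρ →
      ∃ u : (End X)ˣ, HomTrivial H ((u : End X) - 1) ∧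
        ∀ m, ρ m = u * π m * ((u⁻¹ : (End X)ˣ) : End X)) := by
  let mH : ∀ j, Module (End X) ((H j).obj X) := fun j => Module.compHom _ (act (H j) X)
  have sH : ∀ j (a : End X) (x : (H j).obj X), a • x = (H j).map a x := fun j a x => rfl
  have eHT : ∀ a : End X, GenericMembers.HomTrivial (fun j => (H j).obj X) a ↔ HomTrivial H a := by
    intro a
    constructor
    · intro h j
      ext x
      exact h j x
    · intro h j x
      rw [sH, h j]
      rfl
  have eCK : ∀ π : ℕ → End X, GenericMembers.IsCK (fun j => (H j).obj X) d π ↔ IsCK H d π := by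
    intro π
    constructor
    · rintro ⟨h1, h2, h3, h4, h5, h6⟩
      refine ⟨h1, h2, h3, h4, fun i => ?_, fun i j hij => ?_⟩
      · ext x
        exact h5 i x
      · ext x
        exact h6 i j x hij
    · rintro ⟨h1, h2, h3, h4, h5, h6⟩
      refine ⟨h1, h2, h3, h4, fun i x => ?_, fun i j x hij => ?_⟩
      · rw [sH, h5 i]
        rfl
      · rw [sH, h6 i j hij]
        rfl
  obtain ⟨m, hm⟩ := hP
  -- the invariant homologically trivial endomorphisms form a nilpotent ring
  have hgenN : ∃ m : ℕ, ∀ l : List (End X), l.length = m →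
      (∀ a ∈ l, GenericMembers.HomTrivial (fun j => (H j).obj X) a ∧ ∀ γ : Γ, γ • a = a) → l.prod = 0 := by
    refine ⟨2 * m + 1, fun l hl hlN => ?_⟩
    have hform : ∀ a ∈ l, ∃ α : P' ⟶ P, a = il ≫ α ≫ iu ∧ HomTrivial H a := by
      intro a ha
      obtain ⟨h1, h2⟩ := hlN a ha
      have h3 : HomTrivial H a := (eHT a).1 h1
      obtain ⟨α, hq⟩ := hgen a h2 h3
      exact ⟨α, hq, h3⟩
    -- product formula
    have hprod : ∀ (l : List (End X)), (∀ a ∈ l, ∃ α : P' ⟶ P, a = phi iu il α ∧ HomTrivial H a) →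
        ∃ l' : List (End P), l'.length = l.length ∧
          (∀ e ∈ l', ∃ α : P' ⟶ P, HomTrivial H (phi iu il α) ∧ e = eps iu il α) ∧
          ∀ β : P' ⟶ P, l.prod * phi iu il β = phi iu il (β ≫ l'.prod) := by
      intro l
      induction l with
      | nil =>
        intro _
        refine ⟨[], rfl, fun e he => absurd he List.not_mem_nil, fun β => ?_⟩
        rw [List.prod_nil, one_mul, List.prod_nil, End.one_def, Category.comp_id]
      | cons a l ih =>
        intro h
        obtain ⟨l', h1, h2, h3⟩ := ih fun b hb => h b (List.mem_cons_of_mem a hb)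
        obtain ⟨α, ha1, ha2⟩ := h a List.mem_cons_self
        refine ⟨eps iu il α :: l', by rw [List.length_cons, List.length_cons, h1], ?_, fun β => ?_⟩
        · intro e he
          rcases List.mem_cons.1 he with rfl | he
          · exact ⟨α, by rw [← ha1]; exact ha2, rfl⟩
          · exact h2 e he
        · rw [List.prod_cons, mul_assoc, h3 β, ha1, List.prod_cons, phi_mul]
    have hne : l ≠ [] := by
      rintro rfl
      simp at hl
    obtain ⟨t, b, rfl⟩ : ∃ t b, l = t ++ [b] := ⟨l.dropLast, l.getLast hne, (List.dropLast_append_getLast hne).symm⟩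
    obtain ⟨β, hb1, -⟩ := hform b (List.mem_append_right t List.mem_cons_self)
    obtain ⟨l', h1, h2, h3⟩ := hprod t fun a ha => hform a (List.mem_append_left _ ha)
    have ht : l'.length = 2 * m := by
      rw [h1]
      rw [List.length_append, List.length_singleton] at hl
      omega
    obtain ⟨l'', k1, k2, k3⟩ := pairs H
      (fun e => ∃ α : P' ⟶ P, HomTrivial H (phi iu il α) ∧ e = eps iu il α)
      (by
        rintro _ _ ⟨α, hα, rfl⟩ ⟨β, hβ, rfl⟩ j
        have e : (eps iu il α * eps iu il β : End P) = (iu ≫ (phi iu il β : X ⟶ X) ≫ il ≫ α : P ⟶ P) := by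
          rw [End.mul_def]
          simp only [phi, eps, Category.assoc]
        have h4 : (H j).map (phi iu il β : X ⟶ X) = 0 := hβ j
        rw [e, (H j).map_comp, (H j).map_comp, h4, Limits.zero_comp, Limits.comp_zero]) m l' ht h2
    have hb2 : b = phi iu il β := hb1
    rw [List.prod_append, List.prod_singleton, hb2, h3 β, ← k3, hm l'' k1 k2]
    have h5 : β ≫ (0 : P ⟶ P) = 0 := Limits.comp_zero
    change il ≫ (β ≫ (0 : P ⟶ P)) ≫ iu = 0
    rw [h5, Limits.zero_comp, Limits.comp_zero]
  have hhom' : ∀ (γ : Γ) (a : End X), GenericMembers.HomTrivial (fun j => (H j).obj X) a →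
      GenericMembers.HomTrivial (fun j => (H j).obj X) (γ • a) :=
    fun γ a ha => (eHT _).2 (hhom γ a ((eHT a).1 ha))
  obtain ⟨r1, r2, -⟩ := GenericMembers.result (fun j => (H j).obj X) (fun j => (H j).obj X) d horb
    hhom' hgenN
  refine ⟨fun a ha => r1 a ((eHT a).2 ha), fun π ρ h h' => ?_⟩
  obtain ⟨u, hu1, hu2⟩ := r2 π ρ ((eCK π).2 h) ((eCK ρ).2 h')
  exact ⟨u, (eHT _).1 hu1, hu2⟩

/-- existence of Chow-Kuenneth decompositions, if homologically trivial endomorphisms are nilpotent -/
private theorem exists_ck (H : ℕ → C ⥤ ModuleCat.{0} ℚ) [∀ j, (H j).Additive] {X : C} (n : ℕ)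
    (hnil : ∀ a : End X, HomTrivial H a → IsNilpotent a)
    (hdim : ∀ j, 2 * n < j → Subsingleton ((H j).obj X))
    (hex : ∀ j, j ≤ 2 * n → j ≠ n → ∃ a : End X, Kuenneth H j a) :
    ∃ π : ℕ → End X, IsCK H n π := by
  classical
  have hex' : ∀ j, j ≤ 2 * n → ∃ a : End X, Kuenneth H j a := by
    intro j hj
    by_cases hjn : j = n
    · subst hjn
      choose! a ha using hex
      refine ⟨1 - ∑ k ∈ (range (2 * j + 1)).erase j, a k, ?_⟩
      have hs : ∀ k, (H k).map ((1 : End X) - ∑ m ∈ (range (2 * j + 1)).erase j, a m : End X) =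
          𝟙 _ - ∑ m ∈ (range (2 * j + 1)).erase j, (H k).map (a m) := by
        intro k
        rw [← (H k).map_sum, ← (H k).map_id, ← (H k).map_sub]
        rfl
      refine ⟨?_, fun k hk => ?_⟩
      · rw [hs, Finset.sum_eq_zero, sub_zero]
        intro m hm
        rw [Finset.mem_erase, Finset.mem_range] at hm
        exact (ha m (by omega) hm.1).2 j (Ne.symm hm.1)
      · by_cases hk2 : 2 * j < k
        · have := hdim k hk2
          ext x
          exact Subsingleton.elim _ _
        · rw [hs, Finset.sum_eq_single k]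
          · rw [(ha k (by omega) hk).1, sub_self]
          · intro m hm hmk
            rw [Finset.mem_erase, Finset.mem_range] at hm
            exact (ha m (by omega) hm.1).2 k (Ne.symm hmk)
          · intro hm
            exact absurd (Finset.mem_erase.2 ⟨hk, Finset.mem_range.2 (by omega)⟩) hm
    · exact hex j hj hjn
  choose! a ha using hex'
  let f : End X →+* (∀ j : ℕ, Module.End ℚ ((H j).obj X)) := RingHom.pi fun j => act (H j) X
  have hf : ∀ (b : End X) (j : ℕ), f b j = ((H j).map b).hom := fun b j => rfl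
  have hker : ∀ x ∈ RingHom.ker f, IsNilpotent x := by
    intro x hx
    refine hnil x fun j => ?_
    rw [RingHom.mem_ker] at hx
    have h1 := congrFun hx j
    rw [hf] at h1
    ext y
    exact congrArg (fun g : Module.End ℚ ((H j).obj X) => g y) h1
  let e : Fin (2 * n + 1) → (∀ j : ℕ, Module.End ℚ ((H j).obj X)) := fun i => Pi.single (i : ℕ) 1
  have he : CompleteOrthogonalIdempotents e := by
    refine ⟨⟨fun i => ?_, fun i j hij => ?_⟩, ?_⟩
    · change Pi.single (i : ℕ) 1 * Pi.single (i : ℕ) 1 = _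
      rw [← Pi.single_mul, one_mul]
    · funext k
      change (Pi.single (i : ℕ) 1 : ∀ j : ℕ, Module.End ℚ ((H j).obj X)) k *
        (Pi.single (j : ℕ) 1 : ∀ j : ℕ, Module.End ℚ ((H j).obj X)) k = 0
      by_cases hk : k = (i : ℕ)
      · have hk' : k ≠ (j : ℕ) := fun h => hij (Fin.ext (hk.symm.trans h))
        rw [Pi.single_eq_of_ne hk', mul_zero]
      · rw [Pi.single_eq_of_ne hk, zero_mul]
    · funext k
      rw [Finset.sum_apply]
      by_cases hk : k ≤ 2 * n
      · rw [Finset.sum_eq_single (⟨k, by omega⟩ : Fin (2 * n + 1))]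
        · exact Pi.single_eq_same (M := fun j : ℕ => Module.End ℚ ((H j).obj X)) k 1
        · intro i _ hi
          refine Pi.single_eq_of_ne (M := fun j : ℕ => Module.End ℚ ((H j).obj X)) ?_ 1
          intro h
          exact hi (Fin.ext h.symm)
        · intro h
          exact absurd (Finset.mem_univ _) h
      · have := hdim k (by omega)
        ext x
        exact Subsingleton.elim _ _
  have he' : ∀ i, e i ∈ f.range := by
    intro i
    refine ⟨a i, ?_⟩
    obtain ⟨h1, h2⟩ := ha i (by omega)
    funext k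
    rw [hf]
    by_cases hk : k = (i : ℕ)
    · subst hk
      rw [h1]
      exact (Pi.single_eq_same (M := fun j : ℕ => Module.End ℚ ((H j).obj X)) _ 1).symm
    · rw [h2 k hk]
      exact (Pi.single_eq_of_ne (M := fun j : ℕ => Module.End ℚ ((H j).obj X)) hk 1).symm
  obtain ⟨e', h1, h2⟩ := CompleteOrthogonalIdempotents.lift_of_isNilpotent_ker f hker he he'
  have h3 : ∀ (i : Fin (2 * n + 1)) (k : ℕ), ((H k).map (e' i)).hom =
      (Pi.single (i : ℕ) 1 : ∀ j : ℕ, Module.End ℚ ((H j).obj X)) k := by
    intro i k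
    rw [← hf]
    exact congrFun (congrFun h2 i) k
  refine ⟨fun j => if h : j < 2 * n + 1 then e' ⟨j, h⟩ else 0, ?_, ?_, ?_, ?_, ?_, ?_⟩
  · intro i
    split_ifs with hi
    · exact h1.idem _
    · rw [mul_zero]
  · intro i j hij
    split_ifs with hi hj
    · exact h1.ortho fun h => hij (congrArg Fin.val h)
    · rw [mul_zero]
    · rw [zero_mul]
    · rw [zero_mul]
  · rw [Finset.sum_range, ← h1.complete]
    refine Finset.sum_congr rfl fun i _ => ?_
    exact dif_pos i.2
  · intro i hi
    exact dif_neg (by omega)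
  · intro i
    split_ifs with hi
    · ext x
      have h4 := h3 ⟨i, hi⟩ i
      rw [Pi.single_eq_same] at h4
      exact congrArg (fun g : Module.End ℚ ((H i).obj X) => g x) h4
    · have := hdim i (by omega)
      ext x
      exact Subsingleton.elim _ _
  · intro i j hij
    split_ifs with hi
    · ext x
      have h4 := h3 ⟨i, hi⟩ j
      rw [Pi.single_eq_of_ne hij] at h4
      exact congrArg (fun g : Module.End ℚ ((H j).obj X) => g x) h4
    · exact (H j).map_zero X X

/-- comparison: if `e c e` is homologically equivalent to the idempotent `e`, a class fixed by `e` and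
killed by `c` is zero -/
private theorem compare {H CH : ℕ → C ⥤ ModuleCat.{0} ℚ} [∀ i, (CH i).Additive]
    [∀ j, (H j).Additive] {X : C} (hnil : ∀ a : End X, HomTrivial H a → IsNilpotent a)
    {e c : End X} (hc : ∀ k, (H k).map (e * c * e : End X) = (H k).map e) {i : ℕ}
    {x : (CH i).obj X} (hx : (CH i).map e x = x) (hcx : (CH i).map c x = 0) : x = 0 := by
  have h1 : HomTrivial H (e - e * c * e) := ht_sub fun k => (hc k).symm
  refine eq_zero_of_fixed (CH i) (hnil _ h1) ?_
  have h2 : (CH i).map (e * c * e : End X) x = 0 := by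
    rw [map_mul, hx, map_mul, hcx, _root_.map_zero]
  have h3 : (CH i).map (e : X ⟶ X) x = (CH i).map ((e - e * c * e : End X) : X ⟶ X) x +
      (CH i).map ((e * c * e : End X) : X ⟶ X) x := by
    rw [← map_add]
    congr 3
    exact (sub_add_cancel e (e * c * e)).symm
  rw [h2, add_zero, hx] at h3
  exact h3.symm

/-- a Kuenneth projector of degree `j` compared with the `j`-th projector of a decomposition -/
private theorem compare_kuenneth {H : ℕ → C ⥤ ModuleCat.{0} ℚ} {X : C} {d j : ℕ} {π : ℕ → End X}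
    (h : IsCK H d π) {c : End X} (hc : (H j).map c = 𝟙 _) (k : ℕ) :
    (H k).map (π j * c * π j : End X) = (H k).map (π j) := by
  rw [End.mul_def, End.mul_def, (H k).map_comp, (H k).map_comp]
  by_cases hk : k = j
  · subst hk
    rw [h.act, hc, Category.id_comp, Category.id_comp]
  · rw [h.act_ne j k hk, Limits.zero_comp]

section main

variable {H CH : ℕ → C ⥤ ModuleCat.{0} ℚ} [∀ i, (CH i).Additive] [∀ j, (H j).Additive]

/-- the Kuenneth projector `i^* p_j α i_*` of degree `j < n` -/
private theorem low_kuenneth {X P P' : C} {iu : P ⟶ X} {il : X ⟶ P'} {j : ℕ} {p : End P}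
    (hp : Kuenneth H j p) (hs : Function.Surjective ((H j).map iu)) {α : P' ⟶ P}
    (hα : (H j).map (iu ≫ il ≫ α) = 𝟙 _) : Kuenneth H j (il ≫ α ≫ p ≫ iu : X ⟶ X) := by
  refine ⟨?_, fun k hk => ?_⟩
  · ext x
    obtain ⟨y, rfl⟩ := hs x
    have h1 : (H j).map (iu ≫ il ≫ α) y = y := by
      rw [hα]
      rfl
    rw [map_comp, map_comp] at h1
    rw [map_comp, map_comp, map_comp, h1, hp.1]
    rfl
  · rw [(H k).map_comp, (H k).map_comp, (H k).map_comp, hp.2 k hk, Limits.zero_comp,
      Limits.comp_zero, Limits.comp_zero]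

/-- the Kuenneth projector `i^* β q i_*` of degree `j > n` -/
private theorem high_kuenneth {X P P' : C} {iu : P ⟶ X} {il : X ⟶ P'} {j : ℕ} {q : End P'}
    (hq : Kuenneth H j q) (hs : Function.Injective ((H j).map il)) {β : P' ⟶ P}
    (hβ : (H j).map (β ≫ iu ≫ il) = 𝟙 _) : Kuenneth H j (il ≫ q ≫ β ≫ iu : X ⟶ X) := by
  refine ⟨?_, fun k hk => ?_⟩
  · ext x
    have h1 : ∀ y, (H j).map (β ≫ iu ≫ il) y = y := by
      intro y
      rw [hβ]
      rfl
    refine hs ?_
    have h2 := h1 ((H j).map q ((H j).map il x))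
    rw [map_comp, map_comp] at h2
    rw [map_comp, map_comp, map_comp, h2, hq.1]
    rfl
  · rw [(H k).map_comp, (H k).map_comp, (H k).map_comp, hq.2 k hk, Limits.zero_comp,
      Limits.comp_zero]

/-- the endomorphism `a` is homologically the projector on degrees `< n` -/
private def Low (H : ℕ → C ⥤ ModuleCat.{0} ℚ) (n : ℕ) {X : C} (a : End X) : Prop :=
  (∀ k, k < n → (H k).map a = 𝟙 _) ∧ ∀ k, n ≤ k → (H k).map a = 0

private theorem low_sum {X : C} {n : ℕ} {c : ℕ → End X} (hc : ∀ j, j < n → Kuenneth H j (c j)) :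
    Low H n (∑ j ∈ range n, c j) := by
  have hs : ∀ k, (H k).map (∑ j ∈ range n, c j : End X) = ∑ j ∈ range n, (H k).map (c j) := by
    intro k
    exact (H k).map_sum (fun j => (c j : X ⟶ X)) (range n)
  refine ⟨fun k hk => ?_, fun k hk => ?_⟩
  · rw [hs, Finset.sum_eq_single k, (hc k hk).1]
    · intro j hj hjk
      exact (hc j (Finset.mem_range.1 hj)).2 k (Ne.symm hjk)
    · intro h
      exact absurd (Finset.mem_range.2 hk) h
  · rw [hs, Finset.sum_eq_zero]
    intro j hj
    have := Finset.mem_range.1 hj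
    exact (hc j this).2 k (by omega)

private theorem low_eq {X : C} {n : ℕ} {a b : End X} (ha : Low H n a) (hb : Low H n b) (k : ℕ) :
    (H k).map a = (H k).map b := by
  by_cases hk : k < n
  · rw [ha.1 k hk, hb.1 k hk]
  · rw [ha.2 k (by omega), hb.2 k (by omega)]

end main

/-- Let `X` be (the motive, over an algebraic closure of the function field of the parameter space,
of) a very general complete intersection of dimension `n` in `P`, with `P'` the twist of `P` by the
codimension, `il = i_* : X ⟶ P'`, `iu = i^* : P ⟶ X`.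
* `horb, hhom, hgen`: the Galois group `Γ` acts on `End X` with finite orbits and preserves homological
  triviality, and invariant homologically trivial endomorphisms of `X` are of the form `i^* α i_*`.
* `hP, hp, hM`: homologically trivial endomorphisms of `P` form a nilpotent ring, and `P` has a
  Chow-Kuenneth decomposition `p` that satisfies the conclusion of Q1; `hP'`: the corresponding
  projectors of the twist `P'` of `P` in the degrees `n < j ≤ 2 n`.
* `hlow, hhigh`: weak Lefschetz theorem for `X` in `P`, and Lefschetz standard conjecture for `P`.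
* `hdimH, hdimC, hdeg`: `X` has dimension `n`, and an idempotent that acts as zero on `H^j(X)` for all
  `j ≤ 2 i` acts as zero on `CH^i(X)`, for `i = 0, 1`. -/
theorem result [Linear ℚ C] (CH H : ℕ → C ⥤ ModuleCat.{0} ℚ) [∀ i, (CH i).Additive]
    [∀ j, (H j).Additive] {X P P' : C} (iu : P ⟶ X) (il : X ⟶ P') (n dP : ℕ)
    {Γ : Type} [Group Γ] [MulSemiringAction Γ (End X)]
    (horb : ∀ a : End X, (MulAction.orbit Γ a).Finite)
    (hhom : ∀ (γ : Γ) (a : End X), HomTrivial H a → HomTrivial H (γ • a))
    (hgen : ∀ a : End X, (∀ γ : Γ, γ • a = a) → HomTrivial H a → ∃ α : P' ⟶ P, a = il ≫ α ≫ iu)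
    (hP : ∃ m : ℕ, ∀ l : List (End P), l.length = m → (∀ a ∈ l, HomTrivial H a) → l.prod = 0)
    (p : ℕ → End P) (hp : IsCK H dP p) (hM : Murre CH p)
    (hP' : ∀ j, n < j → j ≤ 2 * n →
      ∃ q : End P', Kuenneth H j q ∧ ∀ i, 2 * i < j → (CH i).map q = 0)
    (hlow : ∀ j, j < n → Function.Surjective ((H j).map iu) ∧
      ∃ α : P' ⟶ P, (H j).map (iu ≫ il ≫ α) = 𝟙 _)
    (hhigh : ∀ j, n < j → j ≤ 2 * n → Function.Injective ((H j).map il) ∧
      ∃ β : P' ⟶ P, (H j).map (β ≫ iu ≫ il) = 𝟙 _)
    (hdimH : ∀ j, 2 * n < j → Subsingleton ((H j).obj X))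
    (hdimC : ∀ i, n < i → Subsingleton ((CH i).obj X))
    (hdeg : ∀ i, i ≤ 1 → ∀ e : End X, e * e = e → (∀ j, j ≤ 2 * i → (H j).map e = 0) →
      (CH i).map e = 0) :
    (∀ a : End X, HomTrivial H a → IsNilpotent a) ∧
    (∃ π : ℕ → End X, IsCK H n π) ∧
    (∀ π ρ : ℕ → End X, IsCK H n π → IsCK H n ρ →
      ∃ u : (End X)ˣ, HomTrivial H ((u : End X) - 1) ∧
        ∀ m, ρ m = u * π m * ((u⁻¹ : (End X)ˣ) : End X)) ∧
    (∀ π : ℕ → End X, IsCK H n π →
      (∀ i, F CH π (i + 1) i = {0}) ∧
      (∀ i, i ≤ 1 ∨ n ≤ 2 * i → F CH π 0 i = Set.univ) ∧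
      (∀ i, 2 * i < n → (F CH π 0 i = Set.univ ↔ Function.Surjective ((CH i).map iu))) ∧
      (Murre CH π ↔ ∀ i, 2 ≤ i → 2 * i < n → Function.Surjective ((CH i).map iu))) := by
  classical
  obtain ⟨hnil, hconj⟩ := nil_conj H iu il n horb hhom hP hgen
  have hnilP : ∀ a : End P, HomTrivial H a → IsNilpotent a := by
    intro a ha
    obtain ⟨m, hm⟩ := hP
    refine ⟨m, ?_⟩
    rw [← List.prod_replicate]
    exact hm _ List.length_replicate fun b hb => by rw [List.eq_of_mem_replicate hb]; exact ha
  have hpK : ∀ j, Kuenneth H j (p j) := fun j => ⟨hp.act j, fun k hk => hp.act_ne j k hk⟩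
  choose! hs α hα using hlow
  choose! hi β hβ using hhigh
  choose! q hq hq0 using hP'
  have hcl : ∀ j, j < n → Kuenneth H j (il ≫ α j ≫ (p j : P ⟶ P) ≫ iu : X ⟶ X) := fun j hj =>
    low_kuenneth (hpK j) (hs j hj) (hα j hj)
  have hch : ∀ j, n < j → j ≤ 2 * n → Kuenneth H j (il ≫ (q j : P' ⟶ P') ≫ β j ≫ iu : X ⟶ X) :=
    fun j hj hj' => high_kuenneth (hq j hj hj') (hi j hj hj') (hβ j hj hj')
  have hck : ∃ π : ℕ → End X, IsCK H n π := by
    refine exists_ck H n hnil hdimH fun j hj hjn => ?_
    rcases lt_or_gt_of_ne hjn with h | h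
    · exact ⟨_, hcl j h⟩
    · exact ⟨_, hch j h hj⟩
  -- the projectors of `P` on Chow groups
  have hP0 : ∀ i j, j < i → ∀ x : (CH i).obj P, (CH i).map (p j) x = 0 := fun i =>
    (F1_iff hp i).1 (hM i).2
  have hP1 : ∀ i j, 2 * i < j → ∀ x : (CH i).obj P, (CH i).map (p j) x = 0 := fun i =>
    (F0_iff hp i).1 (hM i).1
  -- transfer to `X`
  have hXlow : ∀ π : ℕ → End X, IsCK H n π → ∀ i j, j < n →
      (∀ x : (CH i).obj P, (CH i).map (p j) x = 0) → ∀ x : (CH i).obj X, (CH i).map (π j) x = 0 := by
    intro π hπ i j hj h0 x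
    refine compare (H := H) hnil (compare_kuenneth hπ (hcl j hj).1) ?_ ?_
    · rw [← map_mul, hπ.idem]
    · rw [map_comp, map_comp, map_comp, h0, _root_.map_zero]
  have hXhigh : ∀ π : ℕ → End X, IsCK H n π → ∀ i j, n < j → j ≤ 2 * n → 2 * i < j →
      ∀ x : (CH i).obj X, (CH i).map (π j) x = 0 := by
    intro π hπ i j hj hj' hij x
    refine compare (H := H) hnil (compare_kuenneth hπ (hch j hj hj').1) ?_ ?_
    · rw [← map_mul, hπ.idem]
    · rw [map_comp, map_comp, map_comp, hq0 j hj hj' i hij]
      have : ∀ y : (CH i).obj P', (0 : (CH i).obj P' ⟶ (CH i).obj P') y = 0 := fun y => rfl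
      rw [this, _root_.map_zero, _root_.map_zero]
  have hXtop : ∀ π : ℕ → End X, IsCK H n π → ∀ i j, 2 * n < j →
      ∀ x : (CH i).obj X, (CH i).map (π j) x = 0 := by
    intro π hπ i j hj x
    rw [hπ.top j hj]
    have : (CH i).map (0 : X ⟶ X) = 0 := (CH i).map_zero X X
    change (CH i).map (0 : X ⟶ X) x = 0
    rw [this]
    rfl
  have hsecond : ∀ π : ℕ → End X, IsCK H n π → ∀ i, F CH π (i + 1) i = {0} := by
    intro π hπ i
    rw [F1_iff hπ i]
    intro j hj x
    by_cases hin : n < i
    · have := hdimC i hin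
      exact Subsingleton.elim _ _
    · exact hXlow π hπ i j (by omega) (hP0 i j hj) x
  have hfirst : ∀ π : ℕ → End X, IsCK H n π → ∀ i, i ≤ 1 ∨ n ≤ 2 * i → F CH π 0 i = Set.univ := by
    intro π hπ i hi'
    rw [F0_iff hπ i]
    intro j hj x
    rcases hi' with hi' | hi'
    · rw [hdeg i hi' (π j) (hπ.idem j) fun k hk => hπ.act_ne j k (by omega)]
      rfl
    · by_cases hj2 : j ≤ 2 * n
      · exact hXhigh π hπ i j (by omega) hj2 hj x
      · exact hXtop π hπ i j (by omega) x
  have hsurj : ∀ π : ℕ → End X, IsCK H n π → ∀ i, 2 * i < n →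
      (F CH π 0 i = Set.univ ↔ Function.Surjective ((CH i).map iu)) := by
    intro π hπ i hin
    rw [F0_iff hπ i]
    -- the sum of the lower projectors
    let A : P' ⟶ P := ∑ j ∈ range n, α j ≫ (p j : P ⟶ P)
    let aX : End X := il ≫ A ≫ iu
    let bP : End P := iu ≫ il ≫ A
    have hπK : ∀ j, Kuenneth H j (π j) := fun j => ⟨hπ.act j, fun k hk => hπ.act_ne j k hk⟩
    have hlowπ : Low H n (∑ j ∈ range n, π j : End X) := low_sum fun j _ => hπK j
    have ha : Low H n aX := by
      have h1 : aX = (∑ j ∈ range n, (il ≫ α j ≫ (p j : P ⟶ P) ≫ iu : X ⟶ X)) := by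
        change il ≫ A ≫ iu = _
        rw [Preadditive.sum_comp, Preadditive.comp_sum]
        refine Finset.sum_congr rfl fun j _ => ?_
        rw [Category.assoc]
      rw [h1]
      exact low_sum (c := fun j => (il ≫ α j ≫ (p j : P ⟶ P) ≫ iu : X ⟶ X)) hcl
    have hlowp : Low H n (∑ j ∈ range n, p j : End P) := low_sum fun j _ => hpK j
    have hb : Low H n bP := by
      have h1 : bP = (∑ j ∈ range n, (iu ≫ il ≫ α j ≫ (p j : P ⟶ P) : P ⟶ P)) := by
        change iu ≫ il ≫ A = _
        rw [Preadditive.comp_sum, Preadditive.comp_sum]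
      rw [h1]
      refine low_sum (c := fun j => (iu ≫ il ≫ α j ≫ (p j : P ⟶ P) : P ⟶ P)) fun j hj => ?_
      have h2 : (iu ≫ il ≫ α j ≫ (p j : P ⟶ P) : P ⟶ P) = (iu ≫ il ≫ α j) ≫ (p j : P ⟶ P) := by
        simp only [Category.assoc]
      refine ⟨?_, fun k hk => ?_⟩
      · rw [h2, (H j).map_comp, hα j hj, hp.act, Category.id_comp]
      · rw [h2, (H k).map_comp, hp.act_ne j k hk, Limits.comp_zero]
    constructor
    · intro hv x
      have hν : HomTrivial H (aX - ∑ j ∈ range n, π j : End X) :=
        ht_sub fun k => low_eq ha hlowπ k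
      obtain ⟨w, -, hw, -⟩ := exists_inv hν (hnil _ hν)
      -- the lower projectors act as the identity
      have h1 : ∀ y : (CH i).obj X, (CH i).map (∑ j ∈ range n, π j : End X) y = y :=
        fun y => sum_proj hπ fun m hm => hv m (by omega) y
      refine ⟨(CH i).map A ((CH i).map il ((CH i).map w x)), ?_⟩
      have h4 : (CH i).map aX ((CH i).map w x) = x := by
        rw [← map_shift (CH i) (h1 _), ← map_mul, hw, map_one]
      change (CH i).map (il ≫ A ≫ iu) ((CH i).map w x) = x at h4
      rwa [map_comp, map_comp] at h4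
    · intro hs' j hj x
      by_cases hj1 : j < n
      · exact hXlow π hπ i j hj1 (hP1 i j hj) x
      by_cases hj2 : 2 * n < j
      · exact hXtop π hπ i j hj2 x
      by_cases hj3 : j = n
      swap
      · exact hXhigh π hπ i j (by omega) (by omega) hj x
      subst hj3
      have hν : HomTrivial H (bP - ∑ m ∈ range j, p m : End P) :=
        ht_sub fun k => low_eq hb hlowp k
      obtain ⟨w, hw, -, hw1⟩ := exists_inv hν (hnilP _ hν)
      -- the homological projector `c`
      let c : End X := il ≫ A ≫ (w : P ⟶ P) ≫ iu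
      have hc : (H j).map c = 0 := by
        have h2 := hw1 j
        let w' : P ⟶ P := w
        have h3 : (H j).map (w' - 𝟙 P) = (H j).map w' - (H j).map (𝟙 P) := (H j).map_sub
        have h4 : (H j).map (w' - 𝟙 P) = 0 := h2
        rw [h4, (H j).map_id] at h3
        have h1 : (H j).map (w : P ⟶ P) = 𝟙 _ := sub_eq_zero.1 h3.symm
        have h5 : (H j).map (il ≫ A ≫ (w : P ⟶ P) ≫ iu : X ⟶ X) =
            (H j).map (il ≫ A ≫ iu : X ⟶ X) := by
          rw [(H j).map_comp, (H j).map_comp, (H j).map_comp, h1, Category.id_comp,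
            (H j).map_comp, (H j).map_comp]
        exact h5.trans (ha.2 j le_rfl)
      -- every class is fixed by `c`
      have hfix : ∀ z : (CH i).obj X, (CH i).map c z = z := by
        intro z
        obtain ⟨y, rfl⟩ := hs' z
        have h1 : (CH i).map (∑ m ∈ range j, p m : End P) y = y :=
          sum_proj hp fun m hm => hP1 i m (by omega) y
        have h8 : (CH i).map (w : P ⟶ P) ((CH i).map bP y) = y := by
          rw [← map_shift (CH i) h1, ← map_mul, hw, map_one]
        change (CH i).map (w : P ⟶ P) ((CH i).map (iu ≫ il ≫ A : P ⟶ P) y) = y at h8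
        rw [map_comp, map_comp] at h8
        change (CH i).map (il ≫ A ≫ (w : P ⟶ P) ≫ iu) ((CH i).map iu y) = (CH i).map iu y
        rw [map_comp, map_comp, map_comp, h8]
      refine compare (H := H) (e := π j) (c := (1 : End X) - c) hnil
        (compare_kuenneth (j := j) hπ ?_) ?_ ?_
      · let c' : X ⟶ X := c
        have h1 : (H j).map (𝟙 X - c') = (H j).map (𝟙 X) - (H j).map c' := (H j).map_sub
        have h2 : (H j).map (𝟙 X - c') = 𝟙 _ := by
          rw [h1, show (H j).map c' = 0 from hc, sub_zero, (H j).map_id]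
        exact h2
      · rw [← map_mul, hπ.idem]
      · rw [map_sub_of, map_one, hfix, sub_self]
  refine ⟨hnil, hck, hconj, fun π hπ => ⟨hsecond π hπ, hfirst π hπ, hsurj π hπ, ?_⟩⟩
  constructor
  · intro h i _ hi2
    exact (hsurj π hπ i hi2).1 (h i).1
  · intro h i
    refine ⟨?_, hsecond π hπ i⟩
    by_cases h1 : i ≤ 1 ∨ n ≤ 2 * i
    · exact hfirst π hπ i h1
    · push Not at h1
      exact (hsurj π hπ i h1.2).2 (h i (by omega) h1.2)

end Pool.Agent.Results.MP_d6e134_ag.WeakLefschetz
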